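import Pool.Agent.H719R3.BG.Defs

/-!
# Every short chord touches a caustic
-/

open scoped ComplexConjugate
open Real

namespace Pool.Agent.H719R3.BG

namespace Ex

theorem cr_smul (w : ℂ) (t : ℝ) : cr w (t • w) = 0 := by
  unfold cr
  rw [mul_smul_comm, mul_comm, Complex.mul_conj, Complex.real_smul, ← Complex.ofReal_mul,
    Complex.ofReal_im]

theorem of_cr_zero {w v : ℂ} (hw : w ≠ 0) (h : cr w v = 0) : ∃ r : ℝ, v = r • w := by
  unfold cr at h
  have h1 : (conj w * v) = (((conj w * v).re : ℝ) : ℂ) := by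
    apply Complex.ext
    · simp
    · rw [Complex.ofReal_im]; exact h
  have h2 : (Complex.normSq w : ℂ) ≠ 0 := by
    rw [Complex.ofReal_ne_zero]
    exact (Complex.normSq_pos.2 hw).ne'
  refine ⟨(conj w * v).re / Complex.normSq w, ?_⟩
  rw [Complex.real_smul, Complex.ofReal_div, ← h1, div_mul_eq_mul_div, eq_div_iff h2,
    ← Complex.mul_conj]
  ring

theorem continuous_cr (w P : ℂ) : Continuous fun y : ℂ => cr w (y - P) := by
  unfold cr
  fun_prop

/-- a boundary point is not between a point of the open convex set and a point of its closure -/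
theorem not_between {Ω : Set ℂ} (hT : Table Ω) {p q y : ℂ} (hp : p ∈ frontier Ω)
    (hq : q ∈ closure Ω) (hy : y ∈ Ω) : p ∉ openSegment ℝ y q := by
  intro h
  have h1 : p ∈ interior Ω := by
    apply hT.convex.openSegment_interior_closure_subset_interior _ hq h
    rwa [hT.isOpen.interior_eq]
  exact hp.2 h1

end Ex

variable {Ω U O₀ K : Set ℂ} {𝒦 : Set (Set ℂ)}

/- T4 (Ex) -/
theorem exists_caustic (hT : Table Ω) (hS : SegFacts Ω) (hC : CausticCollar Ω 𝒦 U) {K₀ : Set ℂ}
    (hK₀ : K₀ ∈ 𝒦) {P B : ℂ} (hP : P ∈ frontier Ω) (hB : B ∈ frontier Ω) (hne : P ≠ B)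
    (hU : segment ℝ P B ⊆ U) (hd : Disjoint (segment ℝ P B) K₀)
    (hl : ∃ y ∈ K₀, 0 < cr (B - P) (y - P)) : ∃ K ∈ 𝒦, K₀ ⊆ K ∧ RT Ω K P B := by
  have hBP : B - P ≠ 0 := sub_ne_zero.2 (Ne.symm hne)
  have hcomp : ∀ K ∈ 𝒦, IsCompact K := fun K hK => (hC.caustic K hK).1
  have hcl : ∀ K ∈ 𝒦, IsClosed K := fun K hK => (hcomp K hK).isClosed
  have hsub : ∀ K ∈ 𝒦, K ⊆ Ω := fun K hK => (hC.caustic K hK).2.2.2.1
  have hfr : ∀ K ∈ 𝒦, frontier K ⊆ K := fun K hK => (hcl K hK).frontier_subset
  have hcover : ∀ y, y ∈ U → y ∈ Ω → ∃ K ∈ 𝒦, y ∈ frontier K := by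
    intro y h1 h2
    have h3 : y ∈ U ∩ Ω := ⟨h1, h2⟩
    rw [hC.fill, Set.mem_iUnion₂] at h3
    obtain ⟨K, hK, hy⟩ := h3
    exact ⟨K, hK, hy⟩
  have hpc : IsCompact (segment ℝ P B) := by
    rw [segment_eq_image_lineMap]
    exact isCompact_Icc.image AffineMap.lineMap_continuous
  -- the caustics which meet the chord
  set A : Set (Set ℂ) := {K | K ∈ 𝒦 ∧ (K ∩ segment ℝ P B).Nonempty} with hA
  have hmid : midpoint ℝ P B ∈ openSegment ℝ P B := by
    rw [openSegment_eq_image_lineMap]
    refine ⟨1 / 2, by constructor <;> norm_num, ?_⟩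
    rw [midpoint, invOf_eq_inv, one_div]
  have hAne : Nonempty A := by
    have h1 := hS.seg P hP B hB hne hmid
    have h2 := openSegment_subset_segment ℝ P B hmid
    obtain ⟨K, hK, h3⟩ := hcover _ (hU h2) h1
    exact ⟨⟨K, hK, _, hfr K hK h3, h2⟩⟩
  obtain ⟨x, hx⟩ := IsCompact.nonempty_iInter_of_directed_nonempty_isCompact_isClosed
    (fun K : A => (K : Set ℂ) ∩ segment ℝ P B)
    (by
      rintro ⟨K, hK, hK2⟩ ⟨K', hK', hK2'⟩
      by_cases he : K = K'
      · subst he
        exact ⟨⟨K, hK, hK2⟩, subset_rfl, subset_rfl⟩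
      · rcases (hC.nest K hK K' hK' he).2 with h | h
        · exact ⟨⟨K, hK, hK2⟩, subset_rfl, Set.inter_subset_inter_left _ h⟩
        · exact ⟨⟨K', hK', hK2'⟩, Set.inter_subset_inter_left _ h, subset_rfl⟩)
    (fun K => K.2.2) (fun K => (hcomp _ K.2.1).inter hpc)
    (fun K => ((hcomp _ K.2.1).inter hpc).isClosed)
  rw [Set.mem_iInter] at hx
  have hxK : ∀ K ∈ A, x ∈ K := fun K hK => (hx ⟨K, hK⟩).1
  obtain ⟨K1, hK1⟩ := hAne
  have hxS : x ∈ segment ℝ P B := (hx ⟨K1, hK1⟩).2
  have hxΩ : x ∈ Ω := hsub K1 hK1.1 (hxK K1 hK1)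
  obtain ⟨K, hK, hxf⟩ := hcover x (hU hxS) hxΩ
  have hxK' : x ∈ K := hfr K hK hxf
  have hKi := (hC.caustic K hK).2.2.1
  have hKc := (hC.caustic K hK).2.1
  -- the interior of `K` does not meet the chord
  have c1 : ∀ y ∈ segment ℝ P B, y ∉ interior K := by
    intro y hy hyi
    have hyK : y ∈ K := interior_subset hyi
    obtain ⟨K', hK', hyf⟩ := hcover y (hU hy) (hsub K hK hyK)
    have hyK' : y ∈ K' := hfr K' hK' hyf
    have hxK'' : x ∈ K' := hxK K' ⟨hK', y, hyK', hy⟩
    have hneK : K ≠ K' := by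
      rintro rfl
      exact hyf.2 hyi
    obtain ⟨h1, h2⟩ := hC.nest K hK K' hK' hneK
    rcases h2 with h2 | h2
    · exact hyf.2 (interior_mono h2 hyi)
    · have h3 : x ∈ frontier K' := by
        rw [(hcl K' hK').frontier_eq]
        exact ⟨hxK'', fun h4 => hxf.2 (interior_mono h2 h4)⟩
      exact Set.disjoint_left.1 h1 hxf h3
  -- `K₀ ⊆ K`
  have c2 : K₀ ⊆ K := by
    by_cases he : K₀ = K
    · exact he.subset
    · rcases (hC.nest K₀ hK₀ K hK he).2 with h | h
      · exact h
      · exact absurd (h hxK') (Set.disjoint_left.1 hd hxS)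
  -- the interior of `K` does not meet the line
  have c3 : ∀ y ∈ interior K, cr (B - P) (y - P) ≠ 0 := by
    intro y hy h0
    have hyΩ : y ∈ Ω := hsub K hK (interior_subset hy)
    obtain ⟨r, hr⟩ := Ex.of_cr_zero hBP h0
    have hy2 : y = P + r • (B - P) := by rw [← hr]; ring
    rcases lt_or_ge 0 r with hr0 | hr0
    · rcases lt_or_ge r 1 with hr1 | hr1
      · apply c1 y _ hy
        rw [segment_eq_image']
        exact ⟨r, ⟨hr0.le, hr1.le⟩, hy2.symm⟩
      · rcases hr1.eq_or_lt with hr2 | hr2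
        · have : y = B := by rw [hy2, ← hr2, one_smul]; ring
          rw [this] at hyΩ
          exact hB.2 (by rwa [hT.isOpen.interior_eq])
        · apply Ex.not_between hT hB (frontier_subset_closure hP) hyΩ
          rw [openSegment_eq_image']
          refine ⟨1 - r⁻¹, ⟨?_, ?_⟩, ?_⟩
          · have : r⁻¹ < 1 := inv_lt_one_of_one_lt₀ hr2
            linarith
          · have : 0 < r⁻¹ := by positivity
            linarith
          · show y + (1 - r⁻¹) • (P - y) = B
            rw [hy2]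
            have hr3 : (r : ℂ) ≠ 0 := by
              rw [Complex.ofReal_ne_zero]; exact hr0.ne'
            simp only [Complex.real_smul]
            push_cast
            field_simp
            ring
    · rcases hr0.eq_or_lt with hr2 | hr2
      · have : y = P := by rw [hy2, hr2, zero_smul, add_zero]
        rw [this] at hyΩ
        exact hP.2 (by rwa [hT.isOpen.interior_eq])
      · apply Ex.not_between hT hP (frontier_subset_closure hB) hyΩ
        rw [openSegment_eq_image']
        have h1r : 0 < 1 - r := by linarith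
        refine ⟨-r / (1 - r), ⟨?_, ?_⟩, ?_⟩
        · exact div_pos (by linarith) h1r
        · rw [div_lt_one h1r]; linarith
        · show y + (-r / (1 - r)) • (B - y) = P
          rw [hy2]
          have hr3 : (1 - r : ℂ) ≠ 0 := by
            have : ((1 - r : ℝ) : ℂ) ≠ 0 := by
              rw [Complex.ofReal_ne_zero]; exact h1r.ne'
            push_cast at this
            exact this
          simp only [Complex.real_smul]
          push_cast
          field_simp
          ring
  -- the sign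
  have hcont : ContinuousOn (fun y : ℂ => cr (B - P) (y - P)) (interior K) :=
    (Ex.continuous_cr (B - P) P).continuousOn
  have hpre : IsPreconnected (interior K) := hKc.interior.isPreconnected
  have hKcl : K ⊆ closure (interior K) := by
    rw [hKc.closure_interior_eq_closure_of_nonempty_interior hKi]
    exact subset_closure
  have c4 : (∀ y ∈ interior K, 0 ≤ cr (B - P) (y - P)) ∨
      (∀ y ∈ interior K, cr (B - P) (y - P) ≤ 0) := by
    by_contra hcon
    push Not at hcon
    obtain ⟨⟨y1, hy1, h1⟩, ⟨y2, hy2, h2⟩⟩ := hcon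
    have := hpre.intermediate_value hy1 hy2 hcont
    obtain ⟨y, hy, h3⟩ := this ⟨h1.le, h2.le⟩
    exact c3 y hy h3
  rcases c4 with c4 | c4
  · refine ⟨K, hK, c2, hP, hB, hne, ?_, x, hxK', ?_⟩
    · have hclosed : IsClosed {y : ℂ | 0 ≤ cr (B - P) (y - P)} :=
        isClosed_le continuous_const (Ex.continuous_cr (B - P) P)
      intro y hy
      exact closure_minimal c4 hclosed (hKcl hy)
    · rw [segment_eq_image'] at hxS
      obtain ⟨t, -, ht⟩ := hxS
      have : x - P = t • (B - P) := by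
        rw [← ht]
        show P + t • (B - P) - P = t • (B - P)
        ring
      rw [this]
      exact Ex.cr_smul _ _
  · exfalso
    have hclosed : IsClosed {y : ℂ | cr (B - P) (y - P) ≤ 0} :=
      isClosed_le (Ex.continuous_cr (B - P) P) continuous_const
    obtain ⟨y, hy, h1⟩ := hl
    have h2 : cr (B - P) (y - P) ≤ 0 := closure_minimal c4 hclosed (hKcl (c2 hy))
    linarith

end Pool.Agent.H719R3.BG
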