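import Pool.Agent.H719R3.BG.Defs

/-! Existence of the parametrisation of the boundary by the angle seen from an inner point. -/

open scoped ComplexConjugate
open Real

namespace Pool.Agent.H719R3.BG

variable {Ω : Set ℂ}

theorem exists_param (hT : Table Ω) {O : ℂ} (hO : O ∈ Ω) : ∃ Γ : ℝ → ℂ, Param Ω O Γ := by
  classical
  set S : Set ℂ := (Homeomorph.addLeft O) ⁻¹' Ω with hS
  have hmemS : ∀ y, y ∈ S ↔ O + y ∈ Ω := fun y => Iff.rfl
  have hSo : IsOpen S := hT.isOpen.preimage (Homeomorph.addLeft O).continuous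
  have hS0 : S ∈ nhds (0 : ℂ) := hSo.mem_nhds (by rw [hmemS]; simpa using hO)
  have hSc : Convex ℝ S := by
    intro a ha b hb s t hs ht hst
    rw [hmemS] at ha hb ⊢
    have h := hT.convex ha hb hs ht hst
    have e : s • (O + a) + t • (O + b) = O + (s • a + t • b) := by
      have : s • (O + a) + t • (O + b) = (s + t) • O + (s • a + t • b) := by
        rw [smul_add, smul_add, add_smul]; abel
      rw [this, hst, one_smul]
    rwa [e] at h
  have hSb : Bornology.IsBounded S := by
    obtain ⟨R, hR⟩ := hT.bounded.exists_norm_le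
    refine (Metric.isBounded_iff_subset_closedBall (0 : ℂ)).2 ⟨R + ‖O‖, fun y hy => ?_⟩
    have h1 := hR (O + y) hy
    have h2 : ‖y‖ ≤ ‖O + y‖ + ‖O‖ := by
      calc ‖y‖ = ‖(O + y) - O‖ := by ring_nf
        _ ≤ ‖O + y‖ + ‖O‖ := norm_sub_le _ _
    simp only [Metric.mem_closedBall, dist_zero_right]
    linarith
  have hfr : ∀ y, y ∈ frontier S ↔ O + y ∈ frontier Ω := by
    intro y
    have := (Homeomorph.addLeft O).preimage_frontier Ω
    rw [hS, ← this]
    rfl
  have habs : Absorbent ℝ S := absorbent_nhds_zero hS0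
  have hvb : Bornology.IsVonNBounded ℝ S := (NormedSpace.isVonNBounded_iff ℝ).2 hSb
  have hpos : ∀ z : ℂ, z ≠ 0 → 0 < gauge S z := fun z hz => (gauge_pos habs hvb).2 hz
  have hgc : Continuous (gauge S) := continuous_gauge hSc hS0
  have hg1 : ∀ z, gauge S z = 1 ↔ z ∈ frontier S := fun z =>
    gauge_eq_one_iff_mem_frontier hSc hS0
  have hexp : ∀ x : ℝ, Complex.exp (x * Complex.I) ≠ 0 := fun x => Complex.exp_ne_zero _
  have hgp : ∀ x : ℝ, 0 < gauge S (Complex.exp (x * Complex.I)) := fun x => hpos _ (hexp x)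
  refine ⟨fun x => O + (((gauge S (Complex.exp (x * Complex.I)))⁻¹ : ℝ) : ℂ) *
    Complex.exp (x * Complex.I), ?_, ?_, ?_, ?_, ?_⟩
  · have hc : Continuous fun x : ℝ => Complex.exp (x * Complex.I) := by fun_prop
    refine continuous_const.add ((Complex.continuous_ofReal.comp
      ((hgc.comp hc).inv₀ fun x => (hgp x).ne')).mul hc)
  · intro x
    have : Complex.exp (((x + 2 * π : ℝ) : ℂ) * Complex.I) = Complex.exp (x * Complex.I) := by
      push_cast
      rw [add_mul, Complex.exp_add, Complex.exp_two_pi_mul_I, mul_one]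
    simp only [this]
  · intro x
    rw [← hfr, ← hg1]
    have h := gauge_smul_of_nonneg (s := S) (α := ℝ) (a := (gauge S (Complex.exp (x * Complex.I)))⁻¹)
      (inv_nonneg.2 (hgp x).le) (Complex.exp (x * Complex.I))
    rw [Complex.real_smul] at h
    rw [h, smul_eq_mul, inv_mul_cancel₀ (hgp x).ne']
  · intro x
    exact ⟨(gauge S (Complex.exp (x * Complex.I)))⁻¹, inv_pos.2 (hgp x), by ring⟩
  · intro P hP
    have h1 : P - O ∈ frontier S := by rw [hfr]; simpa using hP
    have h2 : gauge S (P - O) = 1 := (hg1 _).2 h1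
    have h0 : P - O ≠ 0 := by
      intro h0
      rw [h0, gauge_zero] at h2
      exact zero_ne_one h2
    have hn : 0 < ‖P - O‖ := norm_pos_iff.2 h0
    have h3 : P - O = (‖P - O‖ : ℂ) * Complex.exp ((P - O).arg * Complex.I) :=
      (Complex.norm_mul_exp_arg_mul_I _).symm
    refine ⟨(P - O).arg, ?_⟩
    have h4 : gauge S (P - O) = ‖P - O‖ * gauge S (Complex.exp ((P - O).arg * Complex.I)) := by
      have h := gauge_smul_of_nonneg (s := S) (α := ℝ) (a := ‖P - O‖) hn.le
        (Complex.exp ((P - O).arg * Complex.I))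
      rw [Complex.real_smul, ← h3] at h
      rw [h, smul_eq_mul]
    have h5 : (gauge S (Complex.exp ((P - O).arg * Complex.I)))⁻¹ = ‖P - O‖ := by
      rw [h2] at h4
      exact inv_eq_of_mul_eq_one_left h4.symm
    simp only [h5]
    rw [← h3]
    ring

end Pool.Agent.H719R3.BG
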