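import Pool.Agent.H719R3.BG.Defs

set_option autoImplicit false

/-! Task T3 (helper719): the caustic property gives the reflection law. -/

open scoped ComplexConjugate

namespace Pool.Agent.H719R3.BG

namespace T3

theorem cr_eq (w v : ℂ) : cr w v = w.re * v.im - w.im * v.re := by
  unfold cr
  rw [Complex.mul_im, Complex.conj_re, Complex.conj_im]
  ring

theorem cr_smul (w v : ℂ) (t : ℝ) : cr w ((t : ℂ) * v) = t * cr w v := by
  rw [cr_eq, cr_eq, Complex.re_ofReal_mul, Complex.im_ofReal_mul]
  ring

theorem cr_add (w v v' : ℂ) : cr w (v + v') = cr w v + cr w v' := by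
  rw [cr_eq, cr_eq, cr_eq, Complex.add_re, Complex.add_im]
  ring

theorem cr_self (w : ℂ) : cr w w = 0 := by
  rw [cr_eq]
  ring

theorem cr_swap (w v : ℂ) : cr v w = - cr w v := by
  rw [cr_eq, cr_eq]
  ring

/-- a point of `Ω` on the chord line `P C` lies in the open chord -/
theorem on_chord {Ω : Set ℂ} (hT : Table Ω) (hS : SegFacts Ω) {P C a : ℂ} (hP : P ∈ frontier Ω)
    (hC : C ∈ frontier Ω) (hne : P ≠ C) (ha : a ∈ Ω) (h0 : cr (C - P) (a - P) = 0) :
    ∃ r : ℝ, 0 < r ∧ a - P = (r : ℂ) * (C - P) := by
  obtain ⟨t, ht, hF⟩ := hS.ray P hP a ha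
  have haP : a ≠ P := by
    intro h
    rw [h] at ha
    have := hT.isOpen.inter_frontier_eq
    have h2 : P ∈ Ω ∩ frontier Ω := ⟨ha, hP⟩
    rw [this] at h2
    exact h2
  have ht0 : (t : ℂ) ≠ 0 := by
    rw [Complex.ofReal_ne_zero]
    linarith
  have hB : P ≠ P + t * (a - P) := by
    intro h
    have h1 : (t : ℂ) * (a - P) = 0 := by linear_combination -h
    rcases mul_eq_zero.1 h1 with h2 | h2
    · exact ht0 h2
    · exact haP (sub_eq_zero.1 h2)
  by_cases hCB : C = P + t * (a - P)
  · refine ⟨1 / t, by positivity, ?_⟩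
    have h1 : C - P = t * (a - P) := by rw [hCB]; ring
    rw [h1]
    push_cast
    field_simp
  · exfalso
    apply hS.col P hP C hC _ hF hne hB hCB
    have : P + t * (a - P) - P = (t : ℂ) * (a - P) := by ring
    rw [this, cr_smul, h0, mul_zero]

theorem perp {u w v : ℂ} (hu : u ≠ 0) (h1 : u.re * w.re + u.im * w.im = 0)
    (h2 : u.re * v.re + u.im * v.im = 0) : cr w v = 0 := by
  rw [cr_eq]
  have e1 : u.re * (w.re * v.im - w.im * v.re) = 0 := by
    linear_combination v.im * h1 - w.im * h2
  have e2 : u.im * (w.re * v.im - w.im * v.re) = 0 := by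
    linear_combination -v.re * h1 + w.re * h2
  by_contra h
  rcases mul_eq_zero.1 e1 with h3 | h3
  · rcases mul_eq_zero.1 e2 with h4 | h4
    · exact hu (Complex.ext h3 h4)
    · exact h h4
  · exact h h3

theorem two_supports {K : Set ℂ} {P w v a b : ℂ} {r s : ℝ} (hr : 0 < r) (hs : 0 < s)
    (hwK : ∀ y ∈ K, 0 ≤ cr w (y - P)) (hvK : ∀ y ∈ K, 0 ≤ cr v (y - P))
    (ha : a ∈ K) (hb : b ∈ K) (haw : a - P = -((r : ℂ) * w)) (hbv : b - P = (s : ℂ) * v)
    (hD : 0 < cr w v) (hPK : P ∉ K) {z : ℂ} (hz : Supports K P z) :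
    cr z w = 0 ∨ cr z v = 0 := by
  obtain ⟨-, ⟨c, hc, hc0⟩, hside⟩ := hz
  set D := cr w v with hDdef
  set p := cr v (c - P) with hp
  set q := cr w (c - P) with hq
  have hp0 : 0 ≤ p := hvK c hc
  have hq0 : 0 ≤ q := hwK c hc
  -- `D (c - P) = - p w + q v`
  have hre : D * (c - P).re = - (p * w.re) + q * v.re := by
    rw [hDdef, hp, hq, cr_eq, cr_eq, cr_eq]
    ring
  have him : D * (c - P).im = - (p * w.im) + q * v.im := by
    rw [hDdef, hp, hq, cr_eq, cr_eq, cr_eq]
    ring
  have hrel : p * cr z w = q * cr z v := by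
    have h1 : D * cr z (c - P) = 0 := by rw [hc0, mul_zero]
    rw [cr_eq] at h1
    rw [cr_eq, cr_eq]
    linear_combination z.re * him - z.im * hre - h1
  have hpq : 0 < p ∨ 0 < q := by
    by_contra h
    push Not at h
    have hp1 : p = 0 := le_antisymm h.1 hp0
    have hq1 : q = 0 := le_antisymm h.2 hq0
    rw [hp1, hq1] at hre him
    have h1 : (c - P).re = 0 := by
      have : D * (c - P).re = 0 := by linarith
      rcases mul_eq_zero.1 this with h2 | h2
      · exact absurd h2 hD.ne'
      · exact h2
    have h2 : (c - P).im = 0 := by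
      have : D * (c - P).im = 0 := by linarith
      rcases mul_eq_zero.1 this with h2 | h2
      · exact absurd h2 hD.ne'
      · exact h2
    have h3 : c - P = 0 := Complex.ext h1 h2
    rw [sub_eq_zero.1 h3] at hc
    exact hPK hc
  have hza : cr z (a - P) = - (r * cr z w) := by
    rw [haw]
    have : -((r : ℂ) * w) = ((-r : ℝ) : ℂ) * w := by push_cast; ring
    rw [this, cr_smul]
    ring
  have hzb : cr z (b - P) = s * cr z v := by
    rw [hbv, cr_smul]
  have key : (cr z w ≤ 0 ∧ 0 ≤ cr z v) ∨ (0 ≤ cr z w ∧ cr z v ≤ 0) := by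
    rcases hside with h | h
    · left
      have h1 := h a ha
      have h2 := h b hb
      rw [hza] at h1
      rw [hzb] at h2
      refine ⟨?_, ?_⟩
      · by_contra h3
        push Not at h3
        have := mul_pos hr h3
        linarith
      · by_contra h3
        push Not at h3
        have := mul_neg_of_pos_of_neg hs h3
        linarith
    · right
      have h1 := h a ha
      have h2 := h b hb
      rw [hza] at h1
      rw [hzb] at h2
      refine ⟨?_, ?_⟩
      · by_contra h3
        push Not at h3
        have := mul_neg_of_pos_of_neg hr h3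
        linarith
      · by_contra h3
        push Not at h3
        have := mul_pos hs h3
        linarith
  have hzero : p * cr z w = 0 ∧ q * cr z v = 0 := by
    rcases key with ⟨h1, h2⟩ | ⟨h1, h2⟩
    · have h3 := mul_nonpos_of_nonneg_of_nonpos hp0 h1
      have h4 := mul_nonneg hq0 h2
      constructor <;> linarith
    · have h3 := mul_nonneg hp0 h1
      have h4 := mul_nonpos_of_nonneg_of_nonpos hq0 h2
      constructor <;> linarith
  rcases hpq with h | h
  · left
    rcases mul_eq_zero.1 hzero.1 with h2 | h2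
    · exact absurd h2 h.ne'
    · exact h2
  · right
    rcases mul_eq_zero.1 hzero.2 with h2 | h2
    · exact absurd h2 h.ne'
    · exact h2

end T3

open T3 in
theorem law_of_caustic {Ω K : Set ℂ} (hT : Table Ω) (hS : SegFacts Ω) (hK : IsCaustic Ω K)
    {A P B u : ℂ}
    (h1 : RT Ω K A P) (h2 : RT Ω K P B) (hu : Tangent Ω P u) :
    ((P - A) * (B - P) * conj u ^ 2).im = 0 := by
  obtain ⟨hA, hP, hAP, hwK0, a, ha, ha0⟩ := h1
  obtain ⟨-, hB, hPB, hvK, b, hb, hb0⟩ := h2
  obtain ⟨hKc, hKconv, hKi, hKΩ, hcau⟩ := hK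
  set w := P - A with hw
  set v := B - P with hv
  have hw0 : w ≠ 0 := sub_ne_zero.2 (Ne.symm hAP)
  have hv0 : v ≠ 0 := sub_ne_zero.2 (Ne.symm hPB)
  have hPΩ : P ∉ Ω := by
    intro h
    have h3 := hT.isOpen.inter_frontier_eq
    have h4 : P ∈ Ω ∩ frontier Ω := ⟨h, hP⟩
    rw [h3] at h4
    exact h4
  have hshift : ∀ y : ℂ, cr w (y - P) = cr w (y - A) := by
    intro y
    have : y - A = (y - P) + w := by rw [hw]; ring
    rw [this, cr_add, cr_self, add_zero]
  have hwK : ∀ y ∈ K, 0 ≤ cr w (y - P) := by
    intro y hy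
    rw [hshift]
    exact hwK0 y hy
  have ha1 : cr w (a - P) = 0 := by rw [hshift]; exact ha0
  -- positions of the touching points
  obtain ⟨r, hr, har⟩ := on_chord hT hS hP hA (Ne.symm hAP) (hKΩ ha) (by
    have : A - P = ((-1 : ℝ) : ℂ) * w := by rw [hw]; push_cast; ring
    rw [this]
    have h3 : cr (((-1 : ℝ) : ℂ) * w) (a - P) = - cr w (a - P) := by
      rw [cr_eq, cr_eq, Complex.re_ofReal_mul, Complex.im_ofReal_mul]
      ring
    rw [h3, ha1, neg_zero])
  have haw : a - P = -((r : ℂ) * w) := by
    rw [har, hw]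
    ring
  obtain ⟨s, hs, hbs⟩ := on_chord hT hS hP hB hPB (hKΩ hb) hb0
  -- `w`, `v` are not parallel
  have hD : 0 < cr w v := by
    have h3 : 0 ≤ cr w v := by
      have h4 := hwK b hb
      rw [hbs, ← hv, cr_smul] at h4
      by_contra h5
      push Not at h5
      have := mul_neg_of_pos_of_neg hs h5
      linarith
    rcases h3.lt_or_eq with h4 | h4
    · exact h4
    · exfalso
      by_cases hAB : A = B
      · have hvw : v = -w := by rw [hv, hw, hAB]; ring
        have hall : ∀ y ∈ K, cr w (y - P) = 0 := by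
          intro y hy
          have h5 := hwK y hy
          have h6 := hvK y hy
          rw [hvw] at h6
          have h7 : cr (-w) (y - P) = - cr w (y - P) := by
            rw [cr_eq, cr_eq, Complex.neg_re, Complex.neg_im]
            ring
          rw [h7] at h6
          linarith
        obtain ⟨y0, hy0⟩ := hKi
        have hy0K := interior_subset hy0
        obtain ⟨ε, hε, hball⟩ := Metric.isOpen_iff.1 isOpen_interior y0 hy0
        have hwn : 0 < ‖w‖ := norm_pos_iff.2 hw0
        set δ : ℝ := ε / (2 * ‖w‖) with hδ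
        have hδ0 : 0 < δ := by positivity
        have hmem : y0 + (δ : ℂ) * (Complex.I * w) ∈ K := by
          apply interior_subset
          apply hball
          rw [Metric.mem_ball, dist_eq_norm, add_sub_cancel_left, norm_mul, norm_mul,
            Complex.norm_I, one_mul, Complex.norm_real, Real.norm_eq_abs, abs_of_pos hδ0, hδ]
          have : ε / (2 * ‖w‖) * ‖w‖ = ε / 2 := by field_simp
          rw [this]
          linarith
        have h5 := hall _ hmem
        have h6 := hall _ hy0K
        have h7 : y0 + (δ : ℂ) * (Complex.I * w) - P = (y0 - P) + (δ : ℂ) * (Complex.I * w) := by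
          ring
        rw [h7, cr_add, h6, zero_add, cr_smul] at h5
        have h8 : cr w (Complex.I * w) = ‖w‖ ^ 2 := by
          rw [cr_eq, Complex.sq_norm, Complex.normSq_apply]
          simp
        rw [h8] at h5
        have := mul_pos hδ0 (pow_pos hwn 2)
        linarith
      · apply hS.col P hP A hA B hB (Ne.symm hAP) hPB hAB
        have : cr (A - P) (B - P) = - cr w v := by
          rw [cr_eq, cr_eq, hw, hv]
          simp only [Complex.sub_re, Complex.sub_im]
          ring
        rw [this, ← h4, neg_zero]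
  have hPK : P ∉ K := fun h => hPΩ (hKΩ h)
  have hsw : Supports K P w := ⟨hw0, ⟨a, ha, ha1⟩, Or.inl hwK⟩
  have hsv : Supports K P v := ⟨hv0, ⟨b, hb, hb0⟩, Or.inl hvK⟩
  have hz1 := hcau P hP u w hu hsw
  have hz2 := hcau P hP u v hu hsv
  have e1 : cr (u ^ 2 * conj w) v = (w * v * conj u ^ 2).im := by
    unfold cr
    rw [map_mul, map_pow, Complex.conj_conj]
    congr 1
    ring
  have e2 : cr (u ^ 2 * conj v) w = (w * v * conj u ^ 2).im := by
    unfold cr
    rw [map_mul, map_pow, Complex.conj_conj]
    congr 1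
    ring
  rcases two_supports hr hs hwK hvK ha hb haw hbs hD hPK hz1 with h3 | h3
  · rcases two_supports hr hs hwK hvK ha hb haw hbs hD hPK hz2 with h4 | h4
    · rw [← e2]
      exact h4
    · exfalso
      -- both `conj u * w` and `conj u * v` are purely imaginary
      have f1 : (u.re * w.re + u.im * w.im) * cr u w = 0 := by
        have : cr (u ^ 2 * conj w) w = 2 * ((u.re * w.re + u.im * w.im) * cr u w) := by
          rw [cr_eq, cr_eq]
          simp only [sq, Complex.mul_re, Complex.mul_im, Complex.conj_re, Complex.conj_im]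
          ring
        rw [this] at h3
        linarith
      have f2 : (u.re * v.re + u.im * v.im) * cr u v = 0 := by
        have : cr (u ^ 2 * conj v) v = 2 * ((u.re * v.re + u.im * v.im) * cr u v) := by
          rw [cr_eq, cr_eq]
          simp only [sq, Complex.mul_re, Complex.mul_im, Complex.conj_re, Complex.conj_im]
          ring
        rw [this] at h4
        linarith
      have g1 : cr u w ≠ 0 := by
        intro h5
        apply hu.2 a (hKΩ ha)
        rw [haw]
        have : -((r : ℂ) * w) = ((-r : ℝ) : ℂ) * w := by push_cast; ring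
        rw [this, cr_smul, h5, mul_zero]
      have g2 : cr u v ≠ 0 := by
        intro h5
        apply hu.2 b (hKΩ hb)
        rw [hbs, ← hv, cr_smul, h5, mul_zero]
      have k1 : u.re * w.re + u.im * w.im = 0 := by
        rcases mul_eq_zero.1 f1 with h5 | h5
        · exact h5
        · exact absurd h5 g1
      have k2 : u.re * v.re + u.im * v.im = 0 := by
        rcases mul_eq_zero.1 f2 with h5 | h5
        · exact h5
        · exact absurd h5 g2
      exact hD.ne' (perp hu.1 k1 k2)
  · rw [← e1]
    exact h3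

end Pool.Agent.H719R3.BG
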