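import Pool.Agent.H719R3.BG.Defs

/-! Task T6b (helper169): continuity of the square of the chord direction. -/

open Real Filter Topology
open scoped ComplexConjugate

namespace Pool.Agent.H719R3.BG

variable {Ω : Set ℂ}

theorem t6b_cr_le (w v : ℂ) : |cr w v| ≤ ‖w‖ * ‖v‖ := by
  unfold cr
  refine (Complex.abs_im_le_norm _).trans ?_
  rw [norm_mul, Complex.norm_conj]

theorem t6b_cr_sub (w w' v : ℂ) : cr w v - cr w' v = cr (w - w') v := by
  unfold cr
  rw [map_sub, sub_mul, Complex.sub_im]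

theorem t6b_cr_neg (w v : ℂ) : cr w (-v) = - cr w v := by
  unfold cr
  rw [mul_neg, Complex.neg_im]

theorem t6b_dir {t a : ℂ} (ht : ‖t‖ = 1) (ha : a ≠ 0) :
    ‖a / conj a - t ^ 2‖ = 2 * |cr t a| / ‖a‖ := by
  have hca : conj a ≠ 0 := (map_ne_zero _).2 ha
  have htt : t * conj t = 1 := by
    rw [Complex.mul_conj, Complex.normSq_eq_norm_sq, ht]
    norm_num
  have e1 : a / conj a - t ^ 2 = (t * (conj t * a - conj (conj t * a))) / conj a := by
    rw [map_mul, Complex.conj_conj, eq_div_iff hca, sub_mul, div_mul_cancel₀ _ hca]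
    linear_combination (-a) * htt
  rw [e1, norm_div, Complex.norm_conj, norm_mul, ht, one_mul, Complex.sub_conj]
  congr 1
  rw [norm_mul, Complex.norm_I, mul_one, Complex.norm_real, Real.norm_eq_abs, abs_mul]
  unfold cr
  norm_num

theorem t6b_bound {Γ τ : ℝ → ℂ} {O : ℂ} (hΓ : Param Ω O Γ) (hτ : Tau Ω Γ τ) (x₀ x y : ℝ) :
    ‖MM Γ τ x y - τ x₀ ^ 2‖ ≤ 2 * (‖τ x - τ x₀‖ + ‖τ y - τ x₀‖) := by
  unfold MM
  split_ifs with h
  · have e : τ x ^ 2 - τ x₀ ^ 2 = (τ x - τ x₀) * (τ x + τ x₀) := by ring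
    rw [e, norm_mul]
    have h1 : ‖τ x + τ x₀‖ ≤ 2 := by
      refine (norm_add_le _ _).trans ?_
      rw [hτ.norm, hτ.norm]
      norm_num
    have h2 := norm_nonneg (τ x - τ x₀)
    have h3 := norm_nonneg (τ y - τ x₀)
    nlinarith
  · have ha : Γ y - Γ x ≠ 0 := sub_ne_zero.2 h
    have hna : 0 < ‖Γ y - Γ x‖ := norm_pos_iff.2 ha
    rw [t6b_dir (hτ.norm x₀) ha, div_le_iff₀ hna]
    have h1 := hτ.left x (Γ y) (frontier_subset_closure (hΓ.mem y)) h
    have h2 := hτ.left y (Γ x) (frontier_subset_closure (hΓ.mem x)) (Ne.symm h)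
    rw [← neg_sub (Γ y) (Γ x), t6b_cr_neg] at h2
    have h3 := t6b_cr_le (τ x - τ x₀) (Γ y - Γ x)
    have h4 := t6b_cr_le (τ y - τ x₀) (Γ y - Γ x)
    rw [← t6b_cr_sub, abs_le] at h3 h4
    have h5 := mul_nonneg (norm_nonneg (τ x - τ x₀)) hna.le
    have h6 := mul_nonneg (norm_nonneg (τ y - τ x₀)) hna.le
    have h7 : |cr (τ x₀) (Γ y - Γ x)| ≤ (‖τ x - τ x₀‖ + ‖τ y - τ x₀‖) * ‖Γ y - Γ x‖ := by
      rw [abs_le]
      constructor <;> linarith [h3.1, h3.2, h4.1, h4.2]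
    linarith

theorem t6b_inj {Γ : ℝ → ℂ} {O : ℂ} (hΓ : Param Ω O Γ) {x y : ℝ} (h1 : x ≤ y) (h2 : y ≤ x + π)
    (h : Γ y = Γ x) : y = x := by
  obtain ⟨ρ, hρ, e1⟩ := hΓ.ang x
  obtain ⟨ρ', hρ', e2⟩ := hΓ.ang y
  rw [h, e1] at e2
  -- ρ e^{ix} = ρ' e^{iy}
  have h3 : (ρ : ℂ) = ρ' * Complex.exp (((y - x : ℝ) : ℂ) * Complex.I) := by
    have e3 : Complex.exp (((y - x : ℝ) : ℂ) * Complex.I) =
        Complex.exp (y * Complex.I) / Complex.exp (x * Complex.I) := by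
      rw [← Complex.exp_sub]
      congr 1
      push_cast
      ring
    rw [e3, ← mul_div_assoc, ← e2, mul_div_assoc, div_self (Complex.exp_ne_zero _), mul_one]
  have him := congrArg Complex.im h3
  have hre := congrArg Complex.re h3
  rw [Complex.ofReal_im, Complex.im_ofReal_mul, Complex.exp_ofReal_mul_I_im] at him
  rw [Complex.ofReal_re, Complex.re_ofReal_mul, Complex.exp_ofReal_mul_I_re] at hre
  have hs : Real.sin (y - x) = 0 := by
    rcases mul_eq_zero.1 him.symm with g | g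
    · exact absurd g hρ'.ne'
    · exact g
  by_contra hne
  have hpos : 0 < y - x := by
    rcases lt_or_eq_of_le h1 with g | g
    · linarith
    · exact absurd g.symm hne
  rcases lt_or_eq_of_le h2 with g | g
  · have := Real.sin_pos_of_pos_of_lt_pi hpos (by linarith)
    linarith
  · have e4 : y - x = π := by linarith
    rw [e4, Real.cos_pi] at hre
    linarith

/-- T6b -/
theorem MM_cont {O : ℂ} {Γ τ : ℝ → ℂ} (hO : O ∈ Ω) (hΓ : Param Ω O Γ) (hτ : Tau Ω Γ τ) :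
    ContinuousOn (fun p : ℝ × ℝ => MM Γ τ p.1 p.2) {p | p.1 ≤ p.2 ∧ p.2 ≤ p.1 + π} := by
  rintro ⟨x₀, y₀⟩ ⟨h1, h2⟩
  apply ContinuousAt.continuousWithinAt
  have hcΓ1 : Continuous (fun p : ℝ × ℝ => Γ p.1) := hΓ.cont.comp continuous_fst
  have hcΓ2 : Continuous (fun p : ℝ × ℝ => Γ p.2) := hΓ.cont.comp continuous_snd
  by_cases h : Γ y₀ = Γ x₀
  · have hxy : y₀ = x₀ := t6b_inj hΓ h1 h2 h
    subst hxy
    have hval : MM Γ τ y₀ y₀ = τ y₀ ^ 2 := by
      unfold MM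
      rw [if_pos rfl]
    unfold ContinuousAt
    simp only
    rw [hval, tendsto_iff_norm_sub_tendsto_zero]
    refine squeeze_zero (fun p => norm_nonneg _) (fun p => t6b_bound hΓ hτ y₀ p.1 p.2) ?_
    have hc : Continuous (fun p : ℝ × ℝ => 2 * (‖τ p.1 - τ y₀‖ + ‖τ p.2 - τ y₀‖)) := by
      have c1 : Continuous (fun p : ℝ × ℝ => τ p.1) := hτ.cont.comp continuous_fst
      have c2 : Continuous (fun p : ℝ × ℝ => τ p.2) := hτ.cont.comp continuous_snd
      exact continuous_const.mul ((c1.sub continuous_const).norm.add (c2.sub continuous_const).norm)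
    have := hc.tendsto (y₀, y₀)
    simpa using this
  · have hopen : ∀ᶠ p : ℝ × ℝ in 𝓝 (x₀, y₀), Γ p.2 ≠ Γ p.1 :=
      (isOpen_ne_fun hcΓ2 hcΓ1).mem_nhds h
    have hca : ContinuousAt (fun p : ℝ × ℝ => (Γ p.2 - Γ p.1) / conj (Γ p.2 - Γ p.1))
        (x₀, y₀) := by
      apply ContinuousAt.div
      · exact (hcΓ2.sub hcΓ1).continuousAt
      · exact (Complex.continuous_conj.comp (hcΓ2.sub hcΓ1)).continuousAt
      · exact (map_ne_zero _).2 (sub_ne_zero.2 h)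
    refine hca.congr ?_
    filter_upwards [hopen] with p hp
    unfold MM
    rw [if_neg hp]

end Pool.Agent.H719R3.BG
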