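import Pool.Agent.H719R3.BG.Defs

/-!
# The direction of a chord determines its other end point
-/

open scoped ComplexConjugate
open Real

namespace Pool.Agent.H719R3.BG

variable {Ω U O₀ K : Set ℂ} {𝒦 : Set (Set ℂ)}

theorem Minj_ang {O : ℂ} {Γ : ℝ → ℂ} (hΓ : Param Ω O Γ) {x y z : ℝ} (h1 : x ≤ y)
    (h2 : y ≤ x + π) (h3 : x ≤ z) (h4 : z ≤ x + π) (h : Γ y = Γ z) : y = z := by
  obtain ⟨r, hr, hy⟩ := hΓ.ang y
  obtain ⟨s, hs, hz⟩ := hΓ.ang z
  have e : (r : ℂ) * Complex.exp (y * Complex.I) = s * Complex.exp (z * Complex.I) := by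
    rw [← hy, ← hz, h]
  have hn := congrArg norm e
  rw [norm_mul, norm_mul, Complex.norm_exp_ofReal_mul_I, Complex.norm_exp_ofReal_mul_I, mul_one,
    mul_one, Complex.norm_real, Complex.norm_real, Real.norm_of_nonneg hr.le,
    Real.norm_of_nonneg hs.le] at hn
  rw [hn] at e
  have hs' : (s : ℂ) ≠ 0 := by exact_mod_cast hs.ne'
  have e2 := mul_left_cancel₀ hs' e
  rw [Complex.exp_eq_exp_iff_exists_int] at e2
  obtain ⟨n, hn2⟩ := e2
  have e3 : (y : ℂ) = z + n * (2 * π) := by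
    have h5 : ((y : ℂ) - (z + n * (2 * π))) * Complex.I = 0 := by
      linear_combination hn2
    rcases mul_eq_zero.1 h5 with h6 | h6
    · linear_combination h6
    · exact absurd h6 Complex.I_ne_zero
  have e4 : y = z + n * (2 * π) := by exact_mod_cast e3
  have hpi := Real.pi_pos
  have hn0 : n = 0 := by
    have h5 : (n : ℝ) < 1 := by
      by_contra hcon
      push Not at hcon
      nlinarith
    have h6 : (-1 : ℝ) < n := by
      by_contra hcon
      push Not at hcon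
      nlinarith
    have h7 : n < 1 := by exact_mod_cast h5
    have h8 : -1 < n := by exact_mod_cast h6
    omega
  rw [hn0] at e4
  simpa using e4

theorem Minj_left {O : ℂ} {Γ τ : ℝ → ℂ} (hΓ : Param Ω O Γ)
    (hτ : Tau Ω Γ τ) {x z : ℝ} (hne : Γ z ≠ Γ x)
    (h : τ x ^ 2 = (Γ z - Γ x) / conj (Γ z - Γ x)) : False := by
  have h1 := hτ.left x (Γ z) (frontier_subset_closure (hΓ.mem z)) hne
  have ha : conj (Γ z - Γ x) ≠ 0 := by
    intro h0
    apply hne
    have := (map_eq_zero (starRingEnd ℂ)).1 h0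
    exact sub_eq_zero.1 this
  rw [eq_div_iff ha] at h
  have hn : conj (τ x) * τ x = 1 := by
    rw [← Complex.normSq_eq_conj_mul_self, Complex.normSq_eq_norm_sq, hτ.norm x]
    simp
  have h2 : τ x * conj (Γ z - Γ x) = conj (τ x) * (Γ z - Γ x) := by
    calc τ x * conj (Γ z - Γ x) = (conj (τ x) * τ x) * (τ x * conj (Γ z - Γ x)) := by
          rw [hn, one_mul]
      _ = conj (τ x) * (τ x ^ 2 * conj (Γ z - Γ x)) := by ring
      _ = _ := by rw [h]
  have h3 : conj (conj (τ x) * (Γ z - Γ x)) = conj (τ x) * (Γ z - Γ x) := by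
    rw [map_mul, Complex.conj_conj, h2]
  have h4 := Complex.conj_eq_iff_im.1 h3
  unfold cr at h1
  rw [h4] at h1
  exact lt_irrefl _ h1

theorem MM_inj (hS : SegFacts Ω) {O : ℂ} {Γ τ : ℝ → ℂ} (hO : O ∈ Ω) (hΓ : Param Ω O Γ)
    (hτ : Tau Ω Γ τ) {x y z : ℝ} (h1 : x ≤ y) (h2 : y ≤ x + π) (h3 : x ≤ z) (h4 : z ≤ x + π)
    (h : MM Γ τ x y = MM Γ τ x z) : y = z := by
  have hpi := Real.pi_pos
  unfold MM at h
  by_cases hy : Γ y = Γ x
  · by_cases hz : Γ z = Γ x
    · exact Minj_ang hΓ h1 h2 h3 h4 (hy.trans hz.symm)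
    · rw [if_pos hy, if_neg hz] at h
      exact (Minj_left hΓ hτ hz h).elim
  · by_cases hz : Γ z = Γ x
    · rw [if_neg hy, if_pos hz] at h
      exact (Minj_left hΓ hτ hy h.symm).elim
    · rw [if_neg hy, if_neg hz] at h
      have hne : ∀ w : ℂ, w ≠ 0 → conj w ≠ 0 := fun w hw h0 =>
        hw ((map_eq_zero (starRingEnd ℂ)).1 h0)
      have ha := hne _ (sub_ne_zero.2 hy)
      have hb := hne _ (sub_ne_zero.2 hz)
      rw [div_eq_div_iff ha hb] at h
      have h5 : conj (conj (Γ y - Γ x) * (Γ z - Γ x)) = conj (Γ y - Γ x) * (Γ z - Γ x) := by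
        rw [map_mul, Complex.conj_conj, h, mul_comm]
      have h6 := Complex.conj_eq_iff_im.1 h5
      by_contra hyz
      exact hS.col (Γ x) (hΓ.mem x) (Γ y) (hΓ.mem y) (Γ z) (hΓ.mem z) (Ne.symm hy) (Ne.symm hz)
        (fun e => hyz (Minj_ang hΓ h1 h2 h3 h4 e)) h6

end Pool.Agent.H719R3.BG
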