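import Pool.Agent.H719R3.BG.Defs

open Filter Topology
open scoped Real

namespace Pool.Agent.H719R3.BG

/-- Continuity of the next point of the billiard map (closed relation, uniqueness and
compactness). -/
theorem next_cont {M : ℝ → ℝ → ℂ} {m : ℝ → ℂ}
    (hM : ContinuousOn (fun p : ℝ × ℝ => M p.1 p.2) {p | p.1 ≤ p.2 ∧ p.2 ≤ p.1 + π})
    (hm : Continuous m) (h0 : ∀ x y, x ≤ y → y ≤ x + π → M x y ≠ 0)
    (hinj : ∀ x y z, x ≤ y → y ≤ x + π → x ≤ z → z ≤ x + π → M x y = M x z → y = z)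
    {S : Set ℝ} {x y z : ℝ → ℝ} (hx : ContinuousOn x S) (hy : ContinuousOn y S)
    (h1 : ∀ s ∈ S, x s ≤ y s ∧ y s ≤ x s + π) (h2 : ∀ s ∈ S, y s ≤ z s ∧ z s ≤ y s + π)
    (h3 : ∀ s ∈ S, M (x s) (y s) * M (y s) (z s) = m (y s)) : ContinuousOn z S := by
  intro s0 hs0
  refine tendsto_of_subseq_tendsto ?_
  intro ns hns
  have hnsS : ∀ᶠ k in atTop, ns k ∈ S :=
    (tendsto_nhdsWithin_iff.mp hns).2
  have hyt : Tendsto (fun k => y (ns k)) atTop (𝓝 (y s0)) := (hy s0 hs0).tendsto.comp hns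
  have hxt : Tendsto (fun k => x (ns k)) atTop (𝓝 (x s0)) := (hx s0 hs0).tendsto.comp hns
  have hb : ∀ᶠ k in atTop, z (ns k) ∈ Set.Icc (y s0 - 1) (y s0 + 1 + π) := by
    have e1 : ∀ᶠ k in atTop, y s0 - 1 < y (ns k) := hyt.eventually_const_lt (by linarith)
    have e2 : ∀ᶠ k in atTop, y (ns k) < y s0 + 1 := hyt.eventually_lt_const (by linarith)
    filter_upwards [hnsS, e1, e2] with k hk h1k h2k
    have := h2 _ hk
    constructor <;> linarith [this.1, this.2]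
  obtain ⟨ζ, _, φ, hφ, hζ⟩ := (isCompact_Icc (a := y s0 - 1) (b := y s0 + 1 + π)).tendsto_subseq'
    hb.frequently
  have hφt := hφ.tendsto_atTop
  have hS' : ∀ᶠ k in atTop, ns (φ k) ∈ S := hφt.eventually hnsS
  have hy' : Tendsto (fun k => y (ns (φ k))) atTop (𝓝 (y s0)) := hyt.comp hφt
  have hx' : Tendsto (fun k => x (ns (φ k))) atTop (𝓝 (x s0)) := hxt.comp hφt
  have hz' : Tendsto (fun k => z (ns (φ k))) atTop (𝓝 ζ) := hζ
  have hζ1 : y s0 ≤ ζ := by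
    refine le_of_tendsto_of_tendsto hy' hz' ?_
    filter_upwards [hS'] with k hk using (h2 _ hk).1
  have hζ2 : ζ ≤ y s0 + π := by
    refine le_of_tendsto_of_tendsto hz' (hy'.add_const π) ?_
    filter_upwards [hS'] with k hk using (h2 _ hk).2
  have t1 : Tendsto (fun k => M (x (ns (φ k))) (y (ns (φ k)))) atTop (𝓝 (M (x s0) (y s0))) := by
    have hc : ContinuousWithinAt (fun p : ℝ × ℝ => M p.1 p.2)
        {p | p.1 ≤ p.2 ∧ p.2 ≤ p.1 + π} (x s0, y s0) := hM _ (h1 s0 hs0)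
    have hseq : Tendsto (fun k => (x (ns (φ k)), y (ns (φ k)))) atTop
        (𝓝[{p : ℝ × ℝ | p.1 ≤ p.2 ∧ p.2 ≤ p.1 + π}] (x s0, y s0)) := by
      refine tendsto_nhdsWithin_iff.mpr ⟨hx'.prodMk_nhds hy', ?_⟩
      filter_upwards [hS'] with k hk using h1 _ hk
    exact hc.tendsto.comp hseq
  have t2 : Tendsto (fun k => M (y (ns (φ k))) (z (ns (φ k)))) atTop (𝓝 (M (y s0) ζ)) := by
    have hc : ContinuousWithinAt (fun p : ℝ × ℝ => M p.1 p.2)
        {p | p.1 ≤ p.2 ∧ p.2 ≤ p.1 + π} (y s0, ζ) := hM _ ⟨hζ1, hζ2⟩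
    have hseq : Tendsto (fun k => (y (ns (φ k)), z (ns (φ k)))) atTop
        (𝓝[{p : ℝ × ℝ | p.1 ≤ p.2 ∧ p.2 ≤ p.1 + π}] (y s0, ζ)) := by
      refine tendsto_nhdsWithin_iff.mpr ⟨hy'.prodMk_nhds hz', ?_⟩
      filter_upwards [hS'] with k hk using h2 _ hk
    exact hc.tendsto.comp hseq
  have t3 : Tendsto (fun k => m (y (ns (φ k)))) atTop (𝓝 (m (y s0))) :=
    (hm.tendsto _).comp hy'
  have t4 : Tendsto (fun k => m (y (ns (φ k)))) atTop
      (𝓝 (M (x s0) (y s0) * M (y s0) ζ)) := by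
    refine (t1.mul t2).congr' ?_
    filter_upwards [hS'] with k hk using h3 _ hk
  have heq : M (x s0) (y s0) * M (y s0) ζ = M (x s0) (y s0) * M (y s0) (z s0) := by
    rw [h3 s0 hs0]
    exact tendsto_nhds_unique t4 t3
  have hcan : M (y s0) ζ = M (y s0) (z s0) :=
    mul_left_cancel₀ (h0 _ _ (h1 s0 hs0).1 (h1 s0 hs0).2) heq
  have hfin : ζ = z s0 :=
    hinj _ _ _ hζ1 hζ2 (h2 s0 hs0).1 (h2 s0 hs0).2 hcan
  refine ⟨φ, ?_⟩
  rw [← hfin]
  exact hz'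

end Pool.Agent.H719R3.BG
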