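import Pool.Agent.H719R3.BG.Defs

/-! Task T2 (Rt): right tangents from the boundary of a strictly convex table to a convex body. -/

open scoped ComplexConjugate
open Real

namespace Pool.Agent.H719R3.BG

variable {Ω K : Set ℂ}

namespace Rt

lemma cr_eq (w v : ℂ) : cr w v = w.re * v.im - w.im * v.re := by
  unfold cr
  simp [Complex.mul_im]
  ring

lemma cr_antisymm (w v : ℂ) : cr w v = - cr v w := by
  rw [cr_eq, cr_eq]; ring

lemma cr_smul_left (t : ℝ) (w v : ℂ) : cr ((t : ℂ) * w) v = t * cr w v := by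
  rw [cr_eq, cr_eq]
  simp
  ring

lemma cr_smul_right (t : ℝ) (w v : ℂ) : cr w ((t : ℂ) * v) = t * cr w v := by
  rw [cr_eq, cr_eq]
  simp
  ring

lemma cr_self (w : ℂ) : cr w w = 0 := by
  rw [cr_eq]; ring

/-- parallel vectors -/
lemma exists_smul {w v : ℂ} (hw : w ≠ 0) (h : cr w v = 0) : ∃ r : ℝ, v = r * w := by
  have hn : Complex.normSq w ≠ 0 := by
    rw [Ne, Complex.normSq_eq_zero]; exact hw
  have hn' : w.re * w.re + w.im * w.im ≠ 0 := by
    rw [Complex.normSq_apply] at hn; exact hn
  rw [cr_eq] at h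
  refine ⟨(w.re * v.re + w.im * v.im) / (w.re * w.re + w.im * w.im), ?_⟩
  apply Complex.ext
  · rw [Complex.re_ofReal_mul, div_mul_eq_mul_div, eq_div_iff hn']
    linear_combination (-w.im) * h
  · rw [Complex.im_ofReal_mul, div_mul_eq_mul_div, eq_div_iff hn']
    linear_combination (w.re) * h

lemma not_mem {P : ℂ} (hT : Table Ω) (hP : P ∈ frontier Ω) : P ∉ Ω := by
  rw [hT.isOpen.frontier_eq] at hP
  exact hP.2

/-- a touching point lies strictly between the end points -/
lemma touch_aux (hT : Table Ω) (hKΩ : K ⊆ Ω) {P B y : ℂ} (hP : P ∈ frontier Ω)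
    (hB : B ∈ frontier Ω) (hne : P ≠ B) (hy : y ∈ K) (h0 : cr (B - P) (y - P) = 0) :
    ∃ r : ℝ, 0 < r ∧ r < 1 ∧ y - P = r * (B - P) := by
  have hw : B - P ≠ 0 := sub_ne_zero.2 hne.symm
  obtain ⟨r, hr⟩ := exists_smul hw h0
  have hyΩ : y ∈ interior Ω := by rw [hT.isOpen.interior_eq]; exact hKΩ hy
  have hPc : P ∈ closure Ω := frontier_subset_closure hP
  have hBc : B ∈ closure Ω := frontier_subset_closure hB
  refine ⟨r, ?_, ?_, hr⟩
  · by_contra hneg
    rw [not_lt] at hneg
    rcases eq_or_lt_of_le hneg with h | h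
    · rw [h] at hr
      have : y = P := by
        have : y - P = 0 := by rw [hr]; simp
        exact sub_eq_zero.1 this
      rw [this, hT.isOpen.interior_eq] at hyΩ
      exact not_mem hT hP hyΩ
    · have h1 : P ∈ openSegment ℝ y B := by
        have hp : 0 < 1 - r := by linarith
        refine ⟨1 / (1 - r), -r / (1 - r), by positivity, div_pos (by linarith) hp, ?_, ?_⟩
        · field_simp
          ring
        · have hy' : y = P + r * (B - P) := by rw [← hr]; ring
          have hp' : (1 - (r : ℂ)) ≠ 0 := by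
            have : ((1 - r : ℝ) : ℂ) ≠ 0 := by exact_mod_cast hp.ne'
            simpa using this
          rw [hy']
          simp only [Complex.real_smul]
          push_cast
          field_simp
          ring
      have h2 := hT.convex.openSegment_interior_closure_subset_interior hyΩ hBc h1
      rw [hT.isOpen.interior_eq] at h2
      exact not_mem hT hP h2
  · by_contra hneg
    rw [not_lt] at hneg
    rcases eq_or_lt_of_le hneg with h | h
    · rw [← h] at hr
      have : y = B := by
        have : y - P = B - P := by rw [hr]; simp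
        exact sub_left_inj.1 this
      rw [this, hT.isOpen.interior_eq] at hyΩ
      exact not_mem hT hB hyΩ
    · have h1 : B ∈ openSegment ℝ y P := by
        have hp : 0 < r := by linarith
        refine ⟨1 / r, (r - 1) / r, by positivity, div_pos (by linarith) hp, ?_, ?_⟩
        · field_simp
          ring
        · have hy' : y = P + r * (B - P) := by rw [← hr]; ring
          have hp' : (r : ℂ) ≠ 0 := by exact_mod_cast hp.ne'
          rw [hy']
          simp only [Complex.real_smul]
          push_cast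
          field_simp
          ring
      have h2 := hT.convex.openSegment_interior_closure_subset_interior hyΩ hPc h1
      rw [hT.isOpen.interior_eq] at h2
      exact not_mem hT hB h2

lemma continuous_cr (w P : ℂ) : Continuous fun y : ℂ => cr w (y - P) := by
  simp only [cr_eq]
  fun_prop

/-- existence of the right tangent -/
lemma ex_aux (hT : Table Ω) (hS : SegFacts Ω) (hK : IsCompact K)
    (hKi : (interior K).Nonempty) (hKΩ : K ⊆ Ω) {P : ℂ} (hP : P ∈ frontier Ω) :
    ∃ B, RT Ω K P B := by
  obtain ⟨u, hu, hpos, -⟩ := hS.tan P hP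
  have hPK : ∀ y ∈ K, y ≠ P := by
    rintro y hy rfl
    exact not_mem hT hP (hKΩ hy)
  have hq : ∀ y ∈ K, 0 < cr u (y - P) := fun y hy =>
    hpos y (subset_closure (hKΩ hy)) (hPK y hy)
  have hne : K.Nonempty := hKi.mono interior_subset
  have hcont : ContinuousOn (fun y : ℂ => (conj u * (y - P)).re / cr u (y - P)) K := by
    refine ContinuousOn.div ?_ (continuous_cr u P).continuousOn fun y hy => (hq y hy).ne'
    fun_prop
  obtain ⟨y0, hy0, hmax⟩ := hK.exists_isMaxOn hne hcont
  have hmax' : ∀ y ∈ K, (conj u * (y - P)).re / cr u (y - P) ≤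
      (conj u * (y0 - P)).re / cr u (y0 - P) := fun y hy => hmax hy
  have hu2 : u.re * u.re + u.im * u.im = 1 := by
    have h1 : Complex.normSq u = 1 := by rw [Complex.normSq_eq_norm_sq, hu]; norm_num
    rwa [Complex.normSq_apply] at h1
  have hcr : ∀ y ∈ K, 0 ≤ cr (y0 - P) (y - P) := by
    intro y hy
    have h1 := hmax' y hy
    rw [div_le_div_iff₀ (hq y hy) (hq y0 hy0)] at h1
    have h2 : cr (y0 - P) (y - P) = (conj u * (y0 - P)).re * cr u (y - P) -
        (conj u * (y - P)).re * cr u (y0 - P) := by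
      rw [cr_eq, cr_eq, cr_eq]
      simp only [Complex.mul_re, Complex.conj_re, Complex.conj_im]
      linear_combination (-((y0 - P).re * (y - P).im - (y0 - P).im * (y - P).re)) * hu2
    rw [h2]
    linarith
  obtain ⟨t, ht, hB⟩ := hS.ray P hP y0 (hKΩ hy0)
  refine ⟨P + t * (y0 - P), hP, hB, ?_, ?_, y0, hy0, ?_⟩
  · intro h
    have h1 : (t : ℂ) * (y0 - P) = 0 := by
      have := h
      rw [eq_comm, add_eq_left] at this
      exact this
    rcases mul_eq_zero.1 h1 with h2 | h2
    · have : t = 0 := by exact_mod_cast h2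
      linarith
    · exact hPK y0 hy0 (sub_eq_zero.1 h2)
  · intro y hy
    rw [add_sub_cancel_left, cr_smul_left]
    exact mul_nonneg (by linarith) (hcr y hy)
  · rw [add_sub_cancel_left, cr_smul_left, cr_self, mul_zero]

end Rt

open Rt in
theorem rtFacts (hT : Table Ω) (hS : SegFacts Ω) (hK : IsCompact K) (hKc : Convex ℝ K)
    (hKi : (interior K).Nonempty) (hKΩ : K ⊆ Ω) : RTFacts Ω K where
  ex P hP := ex_aux hT hS hK hKi hKΩ hP
  touch P B h := by
    obtain ⟨hP, hB, hne, -, y, hy, h0⟩ := h
    obtain ⟨r, hr0, hr1, hr⟩ := touch_aux hT hKΩ hP hB hne hy h0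
    refine ⟨y, hy, 1 - r, r, by linarith, hr0, by ring, ?_⟩
    have hy' : y = P + r * (B - P) := by rw [← hr]; ring
    rw [hy']
    simp only [Complex.real_smul]
    push_cast
    ring
  uniq P B B' h h' := by
    obtain ⟨hP, hB, hne, hpos, y, hy, h0⟩ := h
    obtain ⟨-, hB', hne', hpos', y', hy', h0'⟩ := h'
    obtain ⟨r, hr0, hr1, hr⟩ := touch_aux hT hKΩ hP hB hne hy h0
    obtain ⟨r', hr0', hr1', hr'⟩ := touch_aux hT hKΩ hP hB' hne' hy' h0'
    have h1 := hpos' y hy
    have h2 := hpos y' hy'
    rw [hr, cr_smul_right] at h1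
    rw [hr', cr_smul_right] at h2
    have h3 : 0 ≤ cr (B' - P) (B - P) := nonneg_of_mul_nonneg_right h1 hr0
    have h4 : 0 ≤ cr (B - P) (B' - P) := nonneg_of_mul_nonneg_right h2 hr0'
    rw [cr_antisymm] at h3
    by_contra hBB
    exact hS.col P hP B hB B' hB' hne hne' hBB (by linarith)
  uniq' P P' B h h' := by
    obtain ⟨hP, hB, hne, hpos, y, hy, h0⟩ := h
    obtain ⟨hP', -, hne', hpos', y', hy', h0'⟩ := h'
    obtain ⟨r, hr0, hr1, hr⟩ := touch_aux hT hKΩ hP hB hne hy h0
    obtain ⟨r', hr0', hr1', hr'⟩ := touch_aux hT hKΩ hP' hB hne' hy' h0'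
    have h1 := hpos' y hy
    have h2 := hpos y' hy'
    have e1 : cr (B - P') (y - P') = (1 - r) * cr (P - B) (P' - B) := by
      have : y = P + r * (B - P) := by rw [← hr]; ring
      rw [this, cr_eq, cr_eq]
      simp
      ring
    have e2 : cr (B - P) (y' - P) = (1 - r') * cr (P' - B) (P - B) := by
      have : y' = P' + r' * (B - P') := by rw [← hr']; ring
      rw [this, cr_eq, cr_eq]
      simp
      ring
    rw [e1] at h1
    rw [e2] at h2
    have h3 : 0 ≤ cr (P - B) (P' - B) := nonneg_of_mul_nonneg_right h1 (by linarith)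
    have h4 : 0 ≤ cr (P' - B) (P - B) := nonneg_of_mul_nonneg_right h2 (by linarith)
    rw [cr_antisymm] at h4
    by_contra hPP
    exact hS.col B hB P hP P' hP' hne.symm hne'.symm hPP (by linarith)

end Pool.Agent.H719R3.BG
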