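import Mathlib

/-!
# Convex billiard tables in `ℂ` whose boundary collar is filled by caustics: definitions

`cr w v = Im (conj w * v)` is the cross product `w × v`; `0 < cr w v` means that `v` points to the
left of `w`.
-/

open scoped ComplexConjugate

namespace Pool.Agent.H719R3.BG

/-- The cross product `w × v`. -/
noncomputable def cr (w v : ℂ) : ℝ := (conj w * v).im

/-- The line through `p` with direction `w` supports `K`: it meets `K`, and `K` lies on one side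
of it. -/
def Supports (K : Set ℂ) (p w : ℂ) : Prop :=
  w ≠ 0 ∧ (∃ y ∈ K, cr w (y - p) = 0) ∧
    ((∀ y ∈ K, 0 ≤ cr w (y - p)) ∨ (∀ y ∈ K, cr w (y - p) ≤ 0))

/-- `u` is the direction of a tangent line of the open convex set `Ω` at its boundary point `p`:
the line through `p` with direction `u` does not meet `Ω`. -/
def Tangent (Ω : Set ℂ) (p u : ℂ) : Prop := u ≠ 0 ∧ ∀ y ∈ Ω, cr u (y - p) ≠ 0

/-- Convex billiard caustics: whenever a line through the boundary point `p` supports `K`, so does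
the mirror image of this line in the tangent line at `p` (`u ^ 2 * conj w` is the mirror image
of `w`, times `|u|²`). -/
def IsCaustic (Ω K : Set ℂ) : Prop :=
  IsCompact K ∧ Convex ℝ K ∧ (interior K).Nonempty ∧ K ⊆ Ω ∧
    ∀ p ∈ frontier Ω, ∀ u w : ℂ, Tangent Ω p u → Supports K p w → Supports K p (u ^ 2 * conj w)

/-- The part of the neighbourhood `U` of the boundary inside `Ω` is filled exactly by the
boundaries, pairwise disjoint and nested, of the caustics `K ∈ 𝒦`. -/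
structure CausticCollar (Ω : Set ℂ) (𝒦 : Set (Set ℂ)) (U : Set ℂ) : Prop where
  isOpen : IsOpen U
  front : frontier Ω ⊆ U
  fill : U ∩ Ω = ⋃ K ∈ 𝒦, frontier K
  nest : ∀ K ∈ 𝒦, ∀ K' ∈ 𝒦, K ≠ K' →
    Disjoint (frontier K) (frontier K') ∧ (K ⊆ K' ∨ K' ⊆ K)
  caustic : ∀ K ∈ 𝒦, IsCaustic Ω K

/-- Smooth strictly convex tables. -/
structure Table (Ω : Set ℂ) : Prop where
  isOpen : IsOpen Ω
  convex : Convex ℝ Ω
  bounded : Bornology.IsBounded Ω
  nonempty : Ω.Nonempty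
  strict : StrictConvex ℝ (closure Ω)
  smooth : ∀ p ∈ frontier Ω, ∀ u v : ℂ, Tangent Ω p u → Tangent Ω p v → cr u v = 0

/-- Elementary facts about segments and tangents. -/
structure SegFacts (Ω : Set ℂ) : Prop where
  seg : ∀ P ∈ frontier Ω, ∀ B ∈ frontier Ω, P ≠ B → openSegment ℝ P B ⊆ Ω
  col : ∀ P ∈ frontier Ω, ∀ B ∈ frontier Ω, ∀ B' ∈ frontier Ω, P ≠ B → P ≠ B' → B ≠ B' →
    cr (B - P) (B' - P) ≠ 0
  ray : ∀ P ∈ frontier Ω, ∀ y ∈ Ω, ∃ t : ℝ, 1 < t ∧ P + t * (y - P) ∈ frontier Ω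
  tan : ∀ P ∈ frontier Ω, ∃ u : ℂ, ‖u‖ = 1 ∧ (∀ y ∈ closure Ω, y ≠ P → 0 < cr u (y - P)) ∧
    ∀ v, Tangent Ω P v → ∃ c : ℝ, v = c * u

/-- `RT Ω K P B`: the oriented chord from `P` to `B` touches `K` and `K` lies to its left. -/
def RT (Ω K : Set ℂ) (P B : ℂ) : Prop :=
  P ∈ frontier Ω ∧ B ∈ frontier Ω ∧ P ≠ B ∧ (∀ y ∈ K, 0 ≤ cr (B - P) (y - P)) ∧
    ∃ y ∈ K, cr (B - P) (y - P) = 0

/-- Facts about the right tangents from the boundary of `Ω` to `K`. -/
structure RTFacts (Ω K : Set ℂ) : Prop where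
  ex : ∀ P ∈ frontier Ω, ∃ B, RT Ω K P B
  uniq : ∀ P B B', RT Ω K P B → RT Ω K P B' → B = B'
  uniq' : ∀ P P' B, RT Ω K P B → RT Ω K P' B → P = P'
  touch : ∀ P B, RT Ω K P B → ∃ y ∈ K, y ∈ openSegment ℝ P B

/-- Parametrisation of the boundary by the angle seen from `O`. -/
structure Param (Ω : Set ℂ) (O : ℂ) (Γ : ℝ → ℂ) : Prop where
  cont : Continuous Γ
  per : ∀ x, Γ (x + 2 * Real.pi) = Γ x
  mem : ∀ x, Γ x ∈ frontier Ω
  ang : ∀ x, ∃ ρ : ℝ, 0 < ρ ∧ Γ x - O = ρ * Complex.exp (x * Complex.I)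
  surj : ∀ P ∈ frontier Ω, ∃ x, Γ x = P

/-- `τ x` is the unit tangent vector at `Γ x` which has `Ω` on its left. -/
structure Tau (Ω : Set ℂ) (Γ : ℝ → ℂ) (τ : ℝ → ℂ) : Prop where
  cont : Continuous τ
  norm : ∀ x, ‖τ x‖ = 1
  left : ∀ x, ∀ y ∈ closure Ω, y ≠ Γ x → 0 < cr (τ x) (y - Γ x)
  par : ∀ x v, Tangent Ω (Γ x) v → ∃ c : ℝ, v = c * τ x

open Classical in
/-- The square of the direction of the chord from `Γ x` to `Γ y` (of the tangent if the chord is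
degenerate). -/
noncomputable def MM (Γ τ : ℝ → ℂ) (x y : ℝ) : ℂ :=
  if Γ y = Γ x then τ x ^ 2 else (Γ y - Γ x) / conj (Γ y - Γ x)

/-- Closed billiard polygons with `n` vertices `P j` in the table `Ω`. -/
structure Polygon (Ω : Set ℂ) (n : ℕ) (P : ℤ → ℂ) : Prop where
  per : ∀ j, P (j + n) = P j
  mem : ∀ j, P j ∈ frontier Ω
  ne : ∀ j, P (j + 1) ≠ P j
  law : ∀ j u, Tangent Ω (P j) u →
    ((P j - P (j - 1)) * (P (j + 1) - P j) * conj u ^ 2).im = 0

end Pool.Agent.H719R3.BG
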