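import Mathlib
import Pool.Agent.H719R3.BG.Defs

/-! Task T6a (helper640): the continuous unit tangent. -/

open scoped ComplexConjugate Topology
open Filter

namespace Pool.Agent.H719R3.BG

theorem T6a_cr_smul (c : ℝ) (u v : ℂ) : cr (c * u) v = c * cr u v := by
  unfold cr
  rw [map_mul, Complex.conj_ofReal, mul_assoc, Complex.im_ofReal_mul]

theorem T6a_cr_I (u : ℂ) : cr u (Complex.I * u) = ‖u‖ ^ 2 := by
  unfold cr
  rw [← Complex.normSq_eq_norm_sq, Complex.normSq_apply]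
  simp

theorem T6a_cr_sub (u v w : ℂ) : cr u (v - w) = cr u v - cr u w := by
  unfold cr
  rw [mul_sub, Complex.sub_im]

theorem T6a_cr_cont : Continuous (fun p : ℂ × ℂ => cr p.1 p.2) := by
  unfold cr
  fun_prop

variable {Ω : Set ℂ}

theorem T6a_strict (hT : IsOpen Ω) {p v : ℂ} (hv : ‖v‖ = 1) (h : ∀ y ∈ Ω, 0 ≤ cr v (y - p)) :
    ∀ y ∈ Ω, 0 < cr v (y - p) := by
  intro y hy
  refine lt_of_le_of_ne (h y hy) fun h0 => ?_
  obtain ⟨ε, hε, hb⟩ := Metric.isOpen_iff.1 hT y hy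
  have h1 : y - ((ε / 2 : ℝ) : ℂ) * (Complex.I * v) ∈ Ω := by
    apply hb
    rw [Metric.mem_ball, dist_eq_norm]
    have : y - ((ε / 2 : ℝ) : ℂ) * (Complex.I * v) - y = -(((ε / 2 : ℝ) : ℂ) * (Complex.I * v)) := by
      ring
    rw [this, norm_neg, norm_mul, norm_mul, Complex.norm_I, hv, Complex.norm_real,
      Real.norm_eq_abs, abs_of_pos (by linarith)]
    linarith
  have h2 := h _ h1
  have h3 : y - ((ε / 2 : ℝ) : ℂ) * (Complex.I * v) - p =
      (y - p) - ((ε / 2 : ℝ) : ℂ) * (Complex.I * v) := by ring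
  rw [h3, T6a_cr_sub, ← h0] at h2
  have h4 : cr v (((ε / 2 : ℝ) : ℂ) * (Complex.I * v)) = ε / 2 * ‖v‖ ^ 2 := by
    rw [← T6a_cr_I]
    unfold cr
    rw [mul_left_comm, Complex.im_ofReal_mul]
  rw [h4, hv] at h2
  linarith

theorem exists_tau (hT : Table Ω) (hS : SegFacts Ω) {O : ℂ} {Γ : ℝ → ℂ} (hΓ : Param Ω O Γ) :
    ∃ τ : ℝ → ℂ, Tau Ω Γ τ := by
  have h0 : ∀ x : ℝ, ∃ u : ℂ, ‖u‖ = 1 ∧ (∀ y ∈ closure Ω, y ≠ Γ x → 0 < cr u (y - Γ x)) ∧
      ∀ v, Tangent Ω (Γ x) v → ∃ c : ℝ, v = c * u := fun x => hS.tan (Γ x) (hΓ.mem x)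
  choose τ hn hl hp using h0
  have hne : ∀ x, ∀ y ∈ Ω, y ≠ Γ x := by
    intro x y hy h
    have h1 := hΓ.mem x
    rw [hT.isOpen.frontier_eq] at h1
    exact h1.2 (h ▸ hy)
  refine ⟨τ, ?_, hn, hl, hp⟩
  rw [continuous_iff_continuousAt]
  intro x
  refine (isCompact_sphere (0 : ℂ) 1).tendsto_nhds_of_unique_mapClusterPt
    (Eventually.of_forall fun x' => by rw [mem_sphere_zero_iff_norm]; exact hn x') ?_
  intro v hv hc
  rw [mem_sphere_zero_iff_norm] at hv
  have hge : ∀ y ∈ Ω, 0 ≤ cr v (y - Γ x) := by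
    intro y hy
    by_contra hneg
    push Not at hneg
    have hcont : Continuous (fun q : ℂ × ℝ => cr q.1 (y - Γ q.2)) := by
      have h1 : Continuous (fun q : ℂ × ℝ => (q.1, y - Γ q.2)) :=
        continuous_fst.prodMk (continuous_const.sub (hΓ.cont.comp continuous_snd))
      exact T6a_cr_cont.comp h1
    have hev : ∀ᶠ q in 𝓝 (v, x), cr q.1 (y - Γ q.2) < 0 :=
      hcont.continuousAt.eventually_lt continuousAt_const hneg
    rw [nhds_prod_eq] at hev
    obtain ⟨P, hP, Q, hQ, hPQ⟩ := eventually_prod_iff.1 hev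
    obtain ⟨x', hx1, hx2⟩ := ((hc.frequently hP).and_eventually hQ).exists
    have h1 := hPQ hx1 hx2
    have h2 := hl x' y (subset_closure hy) (hne x' y hy)
    simp only at h1
    linarith
  have hpos := T6a_strict hT.isOpen hv hge
  have hv0 : v ≠ 0 := by
    intro h
    rw [h, norm_zero] at hv
    exact zero_ne_one hv
  obtain ⟨c, hcv⟩ := hp x v ⟨hv0, fun y hy => (hpos y hy).ne'⟩
  obtain ⟨y, hy⟩ := hT.nonempty
  have h1 := hpos y hy
  rw [hcv, T6a_cr_smul] at h1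
  have h2 := hl x y (subset_closure hy) (hne x y hy)
  have hc0 : 0 < c := by
    by_contra hcon
    push Not at hcon
    nlinarith
  have h3 : |c| = 1 := by
    have := congrArg norm hcv
    rw [hv, norm_mul, hn, mul_one, Complex.norm_real, Real.norm_eq_abs] at this
    exact this.symm
  rw [abs_of_pos hc0] at h3
  rw [hcv, h3]
  simp

end Pool.Agent.H719R3.BG
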