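import Pool.Agent.H719R3.BG.Defs

/-!
One step of the billiard map in angular coordinates.
-/

open scoped ComplexConjugate
open Real

namespace Pool.Agent.H719R3.BG

variable {Ω U O₀ K : Set ℂ} {𝒦 : Set (Set ℂ)}

namespace TurnAux

/-- interior points of `K` are strictly on the left of the chord -/
theorem cr_pos {P B O : ℂ} (hRT : RT Ω K P B) (hO : O ∈ interior K) :
    0 < cr (B - P) (O - P) := by
  obtain ⟨-, -, hne, hleft, -⟩ := hRT
  obtain ⟨ε, hε, hball⟩ := Metric.isOpen_iff.1 isOpen_interior O hO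
  set w : ℂ := B - P with hw
  have hw0 : w ≠ 0 := sub_ne_zero.2 (Ne.symm hne)
  have hn : 0 < ‖w‖ := norm_pos_iff.2 hw0
  set t : ℝ := ε / (2 * ‖w‖) with ht
  have ht0 : 0 < t := by positivity
  have hmem : O - (t : ℂ) * Complex.I * w ∈ K := by
    apply interior_subset
    apply hball
    rw [Metric.mem_ball, dist_eq_norm]
    have e : O - (t : ℂ) * Complex.I * w - O = -((t : ℂ) * Complex.I * w) := by ring
    rw [e, norm_neg, norm_mul, norm_mul, Complex.norm_I, mul_one, Complex.norm_real,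
      Real.norm_of_nonneg ht0.le, ht]
    have e2 : ε / (2 * ‖w‖) * ‖w‖ = ε / 2 := by
      field_simp
    rw [e2]
    linarith
  have h1 := hleft _ hmem
  have h2 : cr w (O - (t : ℂ) * Complex.I * w - P) = cr w (O - P) - t * Complex.normSq w := by
    unfold cr
    simp only [Complex.mul_im, Complex.mul_re, Complex.sub_re, Complex.sub_im, Complex.conj_re,
      Complex.conj_im, Complex.I_re, Complex.I_im, Complex.ofReal_re, Complex.ofReal_im,
      Complex.normSq_apply]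
    ring
  rw [h2] at h1
  have h3 : 0 < Complex.normSq w := Complex.normSq_pos.2 hw0
  have h4 : 0 < t * Complex.normSq w := mul_pos ht0 h3
  linarith

/-- cross product of two vectors given in polar coordinates -/
theorem cr_polar (ρ σ x y : ℝ) :
    cr ((ρ : ℂ) * Complex.exp (x * Complex.I)) ((σ : ℂ) * Complex.exp (y * Complex.I)) =
      ρ * σ * Real.sin (y - x) := by
  unfold cr
  rw [Complex.exp_mul_I, Complex.exp_mul_I, ← Complex.ofReal_cos, ← Complex.ofReal_sin,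
    ← Complex.ofReal_cos, ← Complex.ofReal_sin]
  simp only [Complex.mul_im, Complex.mul_re, Complex.add_re, Complex.add_im, Complex.conj_re,
    Complex.conj_im, Complex.I_re, Complex.I_im, Complex.ofReal_re, Complex.ofReal_im]
  rw [Real.sin_sub]
  ring

theorem cr_sub (p b : ℂ) : cr (b - p) (-p) = cr p b := by
  unfold cr
  simp only [Complex.mul_im, Complex.sub_re, Complex.sub_im, Complex.conj_re,
    Complex.conj_im, Complex.neg_re, Complex.neg_im]
  ring

theorem sin_pos' {O : ℂ} {Γ : ℝ → ℂ} (hΓ : Param Ω O Γ) (hO : O ∈ interior K) {x y : ℝ}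
    (h : RT Ω K (Γ x) (Γ y)) : 0 < Real.sin (y - x) := by
  have h1 := cr_pos h hO
  obtain ⟨ρ, hρ, e1⟩ := hΓ.ang x
  obtain ⟨σ, hσ, e2⟩ := hΓ.ang y
  have e3 : Γ y - Γ x = (Γ y - O) - (Γ x - O) := by ring
  have e4 : O - Γ x = -(Γ x - O) := by ring
  rw [e3, e4, cr_sub, e1, e2, cr_polar] at h1
  by_contra hcon
  push Not at hcon
  have := mul_nonpos_of_nonneg_of_nonpos (mul_pos hρ hσ).le hcon
  linarith

theorem lt_of_sin {t : ℝ} (h0 : 0 ≤ t) (h1 : t < 2 * π) (h2 : 0 < Real.sin t) :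
    0 < t ∧ t < π := by
  constructor
  · rcases h0.eq_or_lt with h | h
    · rw [← h, Real.sin_zero] at h2
      exact absurd h2 (lt_irrefl _)
    · exact h
  · by_contra hcon
    push Not at hcon
    have h3 : 0 ≤ Real.sin (t - π) :=
      Real.sin_nonneg_of_nonneg_of_le_pi (by linarith) (by linarith)
    rw [Real.sin_sub_pi] at h3
    linarith

theorem inj_of {O : ℂ} {Γ : ℝ → ℂ} (hΓ : Param Ω O Γ) {y z : ℝ} (h : Γ y = Γ z)
    (h1 : -π < z - y) (h2 : z - y < π) : y = z := by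
  obtain ⟨ρ, hρ, e1⟩ := hΓ.ang y
  obtain ⟨σ, hσ, e2⟩ := hΓ.ang z
  have h3 : cr (Γ y - O) (Γ z - O) = 0 := by
    rw [h]
    unfold cr
    simp only [Complex.mul_im, Complex.conj_re, Complex.conj_im]
    ring
  rw [e1, e2, cr_polar] at h3
  have h4 : Real.sin (z - y) = 0 := by
    rcases mul_eq_zero.1 h3 with h5 | h5
    · exact absurd h5 (mul_pos hρ hσ).ne'
    · exact h5
  rw [Real.sin_eq_zero_iff_of_lt_of_lt h1 h2] at h4
  linarith

theorem periodic {O : ℂ} {Γ : ℝ → ℂ} (hΓ : Param Ω O Γ) : Function.Periodic Γ (2 * π) :=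
  fun x => hΓ.per x

/-- uniform continuity -/
theorem exists_eta {O : ℂ} {Γ : ℝ → ℂ} (hΓ : Param Ω O Γ) {d : ℝ} (hd : 0 < d) :
    ∃ η : ℝ, 0 < η ∧ ∀ x y, x < y → y < x + π → y < x + η → dist (Γ x) (Γ y) < d := by
  have huc : UniformContinuousOn Γ (Set.Icc 0 (4 * π)) :=
    isCompact_Icc.uniformContinuousOn_of_continuous hΓ.cont.continuousOn
  rw [Metric.uniformContinuousOn_iff] at huc
  obtain ⟨η, hη, h⟩ := huc d hd
  refine ⟨η, hη, ?_⟩
  intro x y h1 h2 h3
  have hpi : 0 < 2 * π := by positivity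
  have hm := toIcoMod_mem_Ico hpi 0 x
  set k := toIcoDiv hpi 0 x with hk
  have hx0 : toIcoMod hpi 0 x = x - k • (2 * π) := rfl
  rw [hx0, zero_add] at hm
  have e1 : Γ (x - k • (2 * π)) = Γ x := (periodic hΓ).sub_zsmul_eq k
  have e2 : Γ (y - k • (2 * π)) = Γ y := (periodic hΓ).sub_zsmul_eq k
  rw [← e1, ← e2]
  have hpi' := Real.pi_pos
  apply h
  · exact ⟨hm.1, by linarith [hm.2]⟩
  · exact ⟨by linarith [hm.1], by linarith [hm.2]⟩
  · rw [Real.dist_eq]
    have e3 : x - k • (2 * π) - (y - k • (2 * π)) = x - y := by ring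
    rw [e3, abs_sub_comm, abs_of_pos (by linarith)]
    linarith

end TurnAux

open TurnAux in
/- T7 (Turn): geometry of one step -/
theorem turn (hT : Table Ω) (hS : SegFacts Ω) {O : ℂ} {Γ : ℝ → ℂ} (hΓ : Param Ω O Γ)
    (hK : IsCompact K) (hKc : Convex ℝ K) (hKΩ : K ⊆ Ω) (hO : O ∈ interior K)
    (hR : RTFacts Ω K) :
    (∀ x, ∃! y, x < y ∧ y < x + π ∧ RT Ω K (Γ x) (Γ y)) ∧
    (∀ x y, RT Ω K (Γ x) (Γ y) → x ≤ y → y < x + 2 * π → y < x + π) ∧
    ∃ η : ℝ, 0 < η ∧ ∀ x y, x < y → y < x + π → RT Ω K (Γ x) (Γ y) → x + η ≤ y := by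
  refine ⟨?_, ?_, ?_⟩
  · intro x
    obtain ⟨B, hB⟩ := hR.ex (Γ x) (hΓ.mem x)
    obtain ⟨y', hy'⟩ := hΓ.surj B hB.2.1
    have hpi : 0 < 2 * π := by positivity
    have hm := toIcoMod_mem_Ico hpi x y'
    set k := toIcoDiv hpi x y' with hk
    have hy0 : toIcoMod hpi x y' = y' - k • (2 * π) := rfl
    rw [hy0] at hm
    have e1 : Γ (y' - k • (2 * π)) = Γ y' := (periodic hΓ).sub_zsmul_eq k
    have hRT : RT Ω K (Γ x) (Γ (y' - k • (2 * π))) := by
      rw [e1, hy']
      exact hB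
    have hs := sin_pos' hΓ hO hRT
    obtain ⟨l1, l2⟩ := lt_of_sin (by linarith [hm.1]) (by linarith [hm.2]) hs
    refine ⟨y' - k • (2 * π), ⟨by linarith, by linarith, hRT⟩, ?_⟩
    rintro z ⟨hz1, hz2, hz3⟩
    have h4 := hR.uniq _ _ _ hz3 hRT
    exact inj_of hΓ h4 (by linarith) (by linarith)
  · intro x y h h1 h2
    have hs := sin_pos' hΓ hO h
    obtain ⟨l1, l2⟩ := lt_of_sin (by linarith) (by linarith) hs
    linarith
  · obtain ⟨d, hd, hth⟩ := hK.exists_thickening_subset_open hT.isOpen hKΩ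
    obtain ⟨η, hη, h⟩ := exists_eta hΓ hd
    refine ⟨η, hη, ?_⟩
    intro x y h1 h2 hRT
    by_contra hcon
    push Not at hcon
    have h3 := h x y h1 h2 hcon
    obtain ⟨c, hcK, hc⟩ := hR.touch _ _ hRT
    obtain ⟨a, b, ha, hb, hab, hcab⟩ := hc
    have h4 : dist (Γ x) c ≤ dist (Γ x) (Γ y) := by
      rw [dist_eq_norm, dist_eq_norm]
      have e : Γ x - c = b • (Γ x - Γ y) := by
        rw [← hcab]
        have ha' : a = 1 - b := by linarith
        rw [ha']
        module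
      rw [e, norm_smul, Real.norm_of_nonneg hb.le]
      have hb1 : b ≤ 1 := by linarith
      exact mul_le_of_le_one_left (norm_nonneg _) hb1
    have h5 : Γ x ∈ Metric.thickening d K := by
      rw [Metric.mem_thickening_iff]
      exact ⟨c, hcK, lt_of_le_of_lt h4 h3⟩
    have h6 : Γ x ∈ Ω := hth h5
    have h7 : Γ x ∈ frontier Ω := hΓ.mem x
    have h8 : Γ x ∈ Ω ∩ frontier Ω := ⟨h6, h7⟩
    rw [hT.isOpen.inter_frontier_eq] at h8
    exact h8

end Pool.Agent.H719R3.BG
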