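import Pool.Agent.H719R3.BG.Seg
import Pool.Agent.H719R3.BG.Rt
import Pool.Agent.H719R3.BG.Law
import Pool.Agent.H719R3.BG.Ex
import Pool.Agent.H719R3.BG.Gam
import Pool.Agent.H719R3.BG.Tau
import Pool.Agent.H719R3.BG.Mcont
import Pool.Agent.H719R3.BG.Minj
import Pool.Agent.H719R3.BG.Next
import Pool.Agent.H719R3.BG.Turn

/-!
# A collar of caustics gives infinitely many closed polygons with the same number of vertices
-/

open scoped ComplexConjugate
open Real

namespace Pool.Agent.H719R3.BG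

variable {Ω U O K : Set ℂ} {𝒦 : Set (Set ℂ)}

lemma cr_param {Ω : Set ℂ} {O : ℂ} {Γ : ℝ → ℂ} (hΓ : Param Ω O Γ) (x y : ℝ) :
    ∃ c : ℝ, 0 < c ∧ cr (Γ y - Γ x) (O - Γ x) = c * sin (y - x) := by
  obtain ⟨ρ, hρ, h1⟩ := hΓ.ang x
  obtain ⟨ρ', hρ', h2⟩ := hΓ.ang y
  refine ⟨ρ * ρ', mul_pos hρ hρ', ?_⟩
  have e1 : Γ x = O + ρ * Complex.exp (x * Complex.I) := by rw [← h1]; ring
  have e2 : Γ y = O + ρ' * Complex.exp (y * Complex.I) := by rw [← h2]; ring
  rw [e1, e2, sin_sub]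
  unfold cr
  simp only [Complex.mul_im, Complex.mul_re, Complex.sub_re, Complex.sub_im, Complex.add_re,
    Complex.add_im, Complex.conj_re, Complex.conj_im, Complex.exp_ofReal_mul_I_re,
    Complex.exp_ofReal_mul_I_im, Complex.ofReal_re, Complex.ofReal_im, map_sub, map_add, map_mul]
  ring

lemma param_inj {Ω : Set ℂ} {O : ℂ} {Γ : ℝ → ℂ} (hΓ : Param Ω O Γ) {x y : ℝ} (h1 : x ≤ y)
    (h2 : y ≤ x + π) (h : Γ x = Γ y) : x = y := by
  obtain ⟨c, hc, h3⟩ := cr_param hΓ x y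
  rw [h, sub_self] at h3
  have h4 : sin (y - x) = 0 := by
    have : (0 : ℝ) = c * sin (y - x) := by rw [← h3]; unfold cr; simp
    rcases mul_eq_zero.1 this.symm with h5 | h5
    · exact absurd h5 hc.ne'
    · exact h5
  rcases eq_or_lt_of_le h2 with h5 | h5
  · -- antipodal points
    exfalso
    obtain ⟨ρ, hρ, e1⟩ := hΓ.ang x
    obtain ⟨ρ', hρ', e2⟩ := hΓ.ang y
    rw [h5] at e2
    have e3 : Complex.exp (((x + π : ℝ) : ℂ) * Complex.I) = - Complex.exp (x * Complex.I) := by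
      push_cast
      rw [add_mul, Complex.exp_add, Complex.exp_pi_mul_I]; ring
    rw [← h5, ← h, h5, e1, e3] at e2
    have h6 : ((ρ + ρ' : ℝ) : ℂ) * Complex.exp (x * Complex.I) = 0 := by
      push_cast
      linear_combination e2
    rcases mul_eq_zero.1 h6 with h7 | h7
    · have : ρ + ρ' = 0 := by exact_mod_cast h7
      linarith
    · exact Complex.exp_ne_zero _ h7
  · by_contra hne
    have h6 : 0 < sin (y - x) := sin_pos_of_pos_of_lt_pi (by
      rcases lt_or_eq_of_le h1 with h | h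
      · linarith
      · exact absurd h hne) (by linarith)
    linarith

lemma tau_tangent {Ω : Set ℂ} {Γ τ : ℝ → ℂ} (hτ : Tau Ω Γ τ) (hmem : ∀ x, Γ x ∈ frontier Ω)
    (hΩ : IsOpen Ω) (x : ℝ) : Tangent Ω (Γ x) (τ x) := by
  refine ⟨?_, fun y hy => ?_⟩
  · intro h
    have := hτ.norm x
    rw [h, norm_zero] at this
    norm_num at this
  · refine (hτ.left x y (subset_closure hy) ?_).ne'
    rintro rfl
    have := hmem x
    rw [hΩ.frontier_eq] at this
    exact this.2 hy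

lemma MM_ne {Γ τ : ℝ → ℂ} {Ω : Set ℂ} (hτ : Tau Ω Γ τ) (x y : ℝ) : MM Γ τ x y ≠ 0 := by
  have hτ0 : τ x ≠ 0 := by
    intro h
    have := hτ.norm x
    rw [h, norm_zero] at this
    norm_num at this
  unfold MM
  split_ifs with h
  · exact pow_ne_zero _ hτ0
  · refine div_ne_zero (sub_ne_zero.2 h) ?_
    rw [Ne, map_eq_zero]
    exact sub_ne_zero.2 h

lemma conj_unit {z : ℂ} (hz : ‖z‖ = 1) : conj z = z⁻¹ := by
  rw [Complex.inv_def, Complex.normSq_eq_norm_sq, hz]; simp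

/-- The reflection law in terms of the squares of the directions. -/
lemma MM_law {Γ τ : ℝ → ℂ} {Ω : Set ℂ} (hτ : Tau Ω Γ τ) {x y z : ℝ} (h1 : Γ x ≠ Γ y)
    (h2 : Γ y ≠ Γ z)
    (h : ((Γ y - Γ x) * (Γ z - Γ y) * conj (τ y) ^ 2).im = 0) :
    MM Γ τ x y * MM Γ τ y z = τ y ^ 4 := by
  have hτ0 : τ y ≠ 0 := by
    intro h
    have := hτ.norm y
    rw [h, norm_zero] at this
    norm_num at this
  unfold MM
  rw [if_neg h1.symm, if_neg h2.symm]
  have h3 := Complex.conj_eq_iff_im.2 h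
  rw [map_mul, map_mul, map_pow, Complex.conj_conj, conj_unit (hτ.norm y)] at h3
  have n1 : conj (Γ y - Γ x) ≠ 0 := by
    rw [Ne, map_eq_zero]; exact sub_ne_zero.2 h1.symm
  have n2 : conj (Γ z - Γ y) ≠ 0 := by
    rw [Ne, map_eq_zero]; exact sub_ne_zero.2 h2.symm
  field_simp
  field_simp at h3
  linear_combination -h3

/-- One closed polygon through every boundary point. -/
theorem exists_polygon (hT : Table Ω) (hS : SegFacts Ω) (hC : CausticCollar Ω 𝒦 U) {K₀ : Set ℂ}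
    (hK₀ : K₀ ∈ 𝒦) {O : ℂ} (hO : O ∈ interior K₀) {Γ τ : ℝ → ℂ} (hΓ : Param Ω O Γ)
    (hτ : Tau Ω Γ τ) (β : ℝ) : ∃ q : ℕ, 0 < q ∧ ∃ P, Polygon Ω q P ∧ P 0 = Γ β := by
  have hK₀c := hC.caustic K₀ hK₀
  have hOΩ : O ∈ Ω := hK₀c.2.2.2.1 (interior_subset hO)
  -- a neighbourhood of the boundary point
  have hβ := hΓ.mem β
  have hW : IsOpen (U \ K₀) := hC.isOpen.sdiff hK₀c.1.isClosed
  have hβW : Γ β ∈ U \ K₀ := by
    refine ⟨hC.front hβ, fun h => ?_⟩
    rw [hT.isOpen.frontier_eq] at hβ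
    exact hβ.2 (hK₀c.2.2.2.1 h)
  obtain ⟨ε, hε, hball⟩ := Metric.isOpen_iff.1 hW _ hβW
  obtain ⟨δ₀, hδ₀, hδ₁⟩ := Metric.continuousAt_iff.1 hΓ.cont.continuousAt ε hε
  set δ := min (δ₀ / 2) 1 with hδdef
  have hδ : 0 < δ := lt_min (by linarith) one_pos
  have hδ1 : δ ≤ 1 := min_le_right _ _
  have hδ2 : δ < δ₀ := (min_le_left _ _).trans_lt (by linarith)
  have hpi : (3 : ℝ) < π := pi_gt_three
  -- caustics touched by short chords
  have hchord : ∀ s, 0 < s → s ≤ δ → ∃ K ∈ 𝒦, K₀ ⊆ K ∧ RT Ω K (Γ β) (Γ (β + s)) := by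
    intro s hs hs'
    have hne : Γ β ≠ Γ (β + s) := by
      intro h
      have := param_inj hΓ (by linarith) (by linarith) h
      linarith
    have hseg : segment ℝ (Γ β) (Γ (β + s)) ⊆ U \ K₀ := by
      refine ((convex_ball (Γ β) ε).segment_subset (Metric.mem_ball_self hε) ?_).trans hball
      apply hδ₁
      rw [Real.dist_eq, add_sub_cancel_left, abs_of_pos hs]
      linarith
    refine exists_caustic hT hS hC hK₀ hβ (hΓ.mem _) hne (fun z hz => (hseg hz).1) ?_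
      ⟨O, interior_subset hO, ?_⟩
    · exact Set.disjoint_left.2 fun z hz => (hseg hz).2
    · obtain ⟨c, hc, h3⟩ := cr_param hΓ β (β + s)
      rw [h3, add_sub_cancel_left]
      exact mul_pos hc (sin_pos_of_pos_of_lt_pi hs (by linarith))
  -- the step maps
  have hstep : ∀ K : Set ℂ, K ∈ 𝒦 → K₀ ⊆ K → ∃ F : ℝ → ℝ, (∀ x, x < F x ∧ F x < x + π ∧
      RT Ω K (Γ x) (Γ (F x))) ∧ (∀ x y, x < y → y < x + π → RT Ω K (Γ x) (Γ y) → y = F x) ∧
      ∃ η : ℝ, 0 < η ∧ ∀ x, x + η ≤ F x := by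
    intro K hK hKK
    have hc := hC.caustic K hK
    have hR := rtFacts hT hS hc.1 hc.2.1 hc.2.2.1 hc.2.2.2.1
    obtain ⟨h1, -, η, hη, h3⟩ := turn hT hS hΓ hc.1 hc.2.1 hc.2.2.2.1
      (interior_mono hKK hO) hR
    choose F hF hF' using h1
    refine ⟨F, hF, fun x y hxy hy hRT => hF' x y ⟨hxy, hy, hRT⟩, η, hη, fun x => ?_⟩
    exact h3 x (F x) (hF x).1 (hF x).2.1 (hF x).2.2
  choose! KK hKK hKK₀ hKRT using hchord
  have hstep' : ∀ s, 0 < s → s ≤ δ → ∃ F : ℝ → ℝ, (∀ x, x < F x ∧ F x < x + π ∧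
      RT Ω (KK s) (Γ x) (Γ (F x))) ∧
      (∀ x y, x < y → y < x + π → RT Ω (KK s) (Γ x) (Γ y) → y = F x) ∧
      ∃ η : ℝ, 0 < η ∧ ∀ x, x + η ≤ F x := fun s h1 h2 =>
    hstep (KK s) (hKK s h1 h2) (hKK₀ s h1 h2)
  choose! F hF hF' hη using hstep'
  -- the orbits
  set X : ℕ → ℝ → ℝ := fun j s => if 0 < s then (F s)^[j] β else β with hX
  have hX0 : ∀ j, X j 0 = β := fun j => by simp [hX]
  have hXs : ∀ j s, 0 < s → X j s = (F s)^[j] β := fun j s hs => by simp only [hX]; rw [if_pos hs]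
  have hXsucc : ∀ j s, 0 < s → X (j + 1) s = F s (X j s) := fun j s hs => by
    rw [hXs _ _ hs, hXs _ _ hs, Function.iterate_succ_apply']
  have hX1 : ∀ s, 0 ≤ s → s ≤ δ → X 1 s = β + s := by
    intro s hs hs'
    rcases eq_or_lt_of_le hs with h | h
    · rw [← h, hX0, add_zero]
    · rw [hXs _ _ h, Function.iterate_one]
      exact (hF' s h hs' β (β + s) (by linarith) (by linarith) (hKRT s h hs')).symm
  have hbd : ∀ j s, s ∈ Set.Icc 0 δ → X j s ≤ X (j + 1) s ∧ X (j + 1) s ≤ X j s + π := by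
    intro j s hs
    rcases eq_or_lt_of_le hs.1 with h | h
    · rw [← h, hX0, hX0]
      exact ⟨le_rfl, by linarith⟩
    · rw [hXsucc _ _ h]
      have := hF s h hs.2 (X j s)
      exact ⟨this.1.le, this.2.1.le⟩
  have hlaw : ∀ j s, 0 < s → s ≤ δ → ∀ u, Tangent Ω (Γ (X (j + 1) s)) u →
      ((Γ (X (j + 1) s) - Γ (X j s)) * (Γ (X (j + 2) s) - Γ (X (j + 1) s)) * conj u ^ 2).im = 0 := by
    intro j s hs hs' u hu
    have h1 := (hF s hs hs' (X j s)).2.2
    have h2 := (hF s hs hs' (X (j + 1) s)).2.2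
    rw [← hXsucc _ _ hs] at h1 h2
    exact law_of_caustic hT hS (hC.caustic _ (hKK s hs hs')) h1 h2 hu
  have hcont : ∀ j, ContinuousOn (X j) (Set.Icc 0 δ) ∧ ContinuousOn (X (j + 1)) (Set.Icc 0 δ) := by
    intro j
    induction j with
    | zero =>
      refine ⟨?_, ?_⟩
      · refine (continuousOn_const (c := β)).congr fun s hs => ?_
        rcases eq_or_lt_of_le hs.1 with h | h
        · rw [← h, hX0]
        · rw [hXs _ _ h]; rfl
      · refine (ContinuousOn.add (continuousOn_const (c := β)) continuousOn_id).congr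
          fun s hs => ?_
        rw [zero_add, hX1 s hs.1 hs.2]; rfl
    | succ j ih =>
      refine ⟨ih.2, ?_⟩
      refine next_cont (M := MM Γ τ) (m := fun x => τ x ^ 4)
        (MM_cont hOΩ hΓ hτ) (hτ.cont.pow 4) (fun x y _ _ => MM_ne hτ x y)
        (fun x y z h1 h2 h3 h4 h5 => MM_inj hS hOΩ hΓ hτ h1 h2 h3 h4 h5)
        ih.1 ih.2 (hbd j) (hbd (j + 1)) ?_
      intro s hs
      rcases eq_or_lt_of_le hs.1 with h | h
      · rw [← h, hX0, hX0, hX0]
        unfold MM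
        rw [if_pos rfl]; ring
      · have h1 := hF s h hs.2 (X j s)
        have h2 := hF s h hs.2 (X (j + 1) s)
        rw [← hXsucc _ _ h] at h1 h2
        refine MM_law hτ (fun h3 => ?_) (fun h3 => ?_) (hlaw j s h hs.2 _
          (tau_tangent hτ hΓ.mem hT.isOpen _))
        · have := param_inj hΓ h1.1.le h1.2.1.le h3
          linarith
        · have := param_inj hΓ h2.1.le h2.2.1.le h3
          linarith
  -- one full turn
  obtain ⟨η, hη0, hη1⟩ := hη δ hδ le_rfl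
  obtain ⟨q, hq⟩ := exists_nat_gt (2 * π / η)
  have hq0 : 0 < q := by
    have : (0 : ℝ) < q := lt_trans (by positivity) hq
    exact_mod_cast this
  have hgrow : ∀ j : ℕ, β + j * η ≤ X j δ := by
    intro j
    induction j with
    | zero => rw [hXs _ _ hδ]; simp
    | succ j ih =>
      rw [hXsucc _ _ hδ]
      have := hη1 (X j δ)
      push_cast
      linarith
  have hbig : β + 2 * π ≤ X q δ := by
    refine le_trans ?_ (hgrow q)
    have := (div_lt_iff₀ hη0).1 hq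
    linarith
  have hivt := intermediate_value_Icc hδ.le (hcont q).1
  have hmem : β + 2 * π ∈ Set.Icc (X q 0) (X q δ) := ⟨by rw [hX0]; linarith, hbig⟩
  obtain ⟨s, hs, hsq⟩ := hivt hmem
  have hs0 : 0 < s := by
    rcases eq_or_lt_of_le hs.1 with h | h
    · exfalso
      rw [← h, hX0] at hsq
      linarith
    · exact h
  have hFper : ∀ x, F s (x + 2 * π) = F s x + 2 * π := by
    intro x
    have h1 := hF s hs0 hs.2 x
    symm
    apply hF' s hs0 hs.2
    · linarith [h1.1]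
    · linarith [h1.2.1]
    · rw [hΓ.per, hΓ.per]; exact h1.2.2
  have hXper : ∀ j, X (j + q) s = X j s + 2 * π := by
    intro j
    induction j with
    | zero =>
      rw [zero_add, hsq, hXs _ _ hs0]; rfl
    | succ j ih =>
      rw [show j + 1 + q = (j + q) + 1 by ring, hXsucc _ _ hs0, ih, hFper, hXsucc _ _ hs0]
  have hΓper : ∀ j k, Γ (X (j + k * q) s) = Γ (X j s) := by
    intro j k
    induction k with
    | zero => rw [zero_mul, add_zero]
    | succ k ih =>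
      rw [show j + (k + 1) * q = (j + k * q) + q by ring, hXper, hΓ.per, ih]
  set P : ℤ → ℂ := fun j => Γ (X (j % q).toNat s) with hP
  have hq' : (0 : ℤ) < q := by exact_mod_cast hq0
  have hPeq : ∀ (j : ℤ) (m : ℕ), (q : ℤ) ∣ (m : ℤ) - j → P j = Γ (X m s) := by
    intro j m hm
    have h1 : j % q = (m : ℤ) % q := Int.modEq_iff_dvd.2 hm
    have h2 : (j % q).toNat = m % q := by
      rw [h1, ← Int.natCast_mod, Int.toNat_natCast]
    have h3 : m = m % q + (m / q) * q := by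
      rw [mul_comm]; exact (Nat.mod_add_div m q).symm
    simp only [hP]
    rw [h2]
    conv_rhs => rw [h3]
    exact (hΓper _ _).symm
  -- every residue class contains a large natural number
  have hrep : ∀ j : ℤ, ∃ m : ℕ, (q : ℤ) ∣ ((m + 1 : ℕ) : ℤ) - j := by
    intro j
    refine ⟨((j - 1) % q).toNat, ?_⟩
    have h1 : ((((j - 1) % q).toNat : ℕ) : ℤ) = (j - 1) % q :=
      Int.toNat_of_nonneg (Int.emod_nonneg _ hq'.ne')
    push_cast
    rw [h1, Int.emod_def]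
    exact ⟨-((j - 1) / q), by ring⟩
  have hRTX : ∀ m, RT Ω (KK s) (Γ (X m s)) (Γ (X (m + 1) s)) := fun m => by
    rw [hXsucc _ _ hs0]; exact (hF s hs0 hs.2 _).2.2
  refine ⟨q, hq0, P, ⟨?_, ?_, ?_, ?_⟩, ?_⟩
  · intro j
    simp only [hP]
    rw [Int.add_emod_right]
  · intro j
    exact hΓ.mem _
  · intro j
    obtain ⟨m, hm⟩ := hrep j
    have e1 := hPeq j (m + 1) hm
    have e2 := hPeq (j + 1) (m + 2) (by
      have : (((m + 2 : ℕ) : ℤ)) - (j + 1) = ((m + 1 : ℕ) : ℤ) - j := by push_cast; ring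
      rw [this]; exact hm)
    rw [e1, e2]
    exact (hRTX (m + 1)).2.2.1.symm
  · intro j u hu
    obtain ⟨m, hm⟩ := hrep j
    have e1 := hPeq j (m + 1) hm
    have e2 := hPeq (j + 1) (m + 2) (by
      have : (((m + 2 : ℕ) : ℤ)) - (j + 1) = ((m + 1 : ℕ) : ℤ) - j := by push_cast; ring
      rw [this]; exact hm)
    have e3 := hPeq (j - 1) m (by
      have : ((m : ℕ) : ℤ) - (j - 1) = ((m + 1 : ℕ) : ℤ) - j := by push_cast; ring
      rw [this]; exact hm)
    rw [e1] at hu ⊢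
    rw [e2, e3]
    exact hlaw m s hs0 hs.2 u hu
  · have e := hPeq 0 0 (by simp)
    rw [e, hXs _ _ hs0]; rfl

/-- **A collar of caustics gives infinitely many closed billiard polygons with the same number of
vertices.** -/
theorem exists_infinite (hT : Table Ω) (hC : CausticCollar Ω 𝒦 U) :
    ∃ n : ℕ, 0 < n ∧ {P : ℤ → ℂ | Polygon Ω n P}.Infinite := by
  have hS := segFacts hT
  obtain ⟨O₁, hO₁⟩ := hT.nonempty
  obtain ⟨Γ₁, hΓ₁⟩ := exists_param hT hO₁
  have hP₀ := hΓ₁.mem 0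
  have hcl : Γ₁ 0 ∈ closure Ω := frontier_subset_closure hP₀
  obtain ⟨y, hyU, hyΩ⟩ := mem_closure_iff.1 hcl U hC.isOpen (hC.front hP₀)
  have hy : y ∈ ⋃ K ∈ 𝒦, frontier K := by rw [← hC.fill]; exact ⟨hyU, hyΩ⟩
  simp only [Set.mem_iUnion] at hy
  obtain ⟨K₀, hK₀, -⟩ := hy
  obtain ⟨O, hO⟩ := (hC.caustic K₀ hK₀).2.2.1
  have hOΩ : O ∈ Ω := (hC.caustic K₀ hK₀).2.2.2.1 (interior_subset hO)
  obtain ⟨Γ, hΓ⟩ := exists_param hT hOΩ
  obtain ⟨τ, hτ⟩ := exists_tau hT hS hΓ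
  by_contra hcon
  push Not at hcon
  have hcount : (⋃ n : ℕ, (fun P : ℤ → ℂ => P 0) ''
      {P | 0 < n ∧ Polygon Ω n P}).Countable := by
    refine Set.countable_iUnion fun n => ?_
    rcases Nat.eq_zero_or_pos n with h | h
    · have : {P : ℤ → ℂ | 0 < n ∧ Polygon Ω n P} = ∅ := by
        ext P; simp [h]
      rw [this, Set.image_empty]
      exact Set.countable_empty
    · have h1 := hcon n h
      exact ((h1.subset fun P hP => hP.2).image _).countable
  have hsub : Γ '' Set.Icc 0 1 ⊆ ⋃ n : ℕ, (fun P : ℤ → ℂ => P 0) ''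
      {P | 0 < n ∧ Polygon Ω n P} := by
    rintro _ ⟨x, -, rfl⟩
    obtain ⟨q, hq, P, hP, hP0⟩ := exists_polygon hT hS hC hK₀ hO hΓ hτ x
    exact Set.mem_iUnion.2 ⟨q, P, ⟨hq, hP⟩, hP0⟩
  have h2 := hcount.mono hsub
  have hpi : (3 : ℝ) < π := pi_gt_three
  have hinj : Set.InjOn Γ (Set.Icc 0 1) := by
    intro x hx y hy h
    rcases le_total x y with hxy | hxy
    · exact param_inj hΓ hxy (by linarith [hx.1, hy.2]) h
    · exact (param_inj hΓ hxy (by linarith [hx.2, hy.1]) h.symm).symm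
  have h3 : (Set.Icc (0 : ℝ) 1).Countable := Set.countable_of_injective_of_countable_image hinj h2
  have h4 := Cardinal.Real.Icc_countable_iff.1 h3
  norm_num at h4

end Pool.Agent.H719R3.BG
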