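import Pool.Agent.H719R3.BG.Defs

/-! T1: segments, rays and tangents of a strictly convex table. -/

open scoped ComplexConjugate
open Real

namespace Pool.Agent.H719R3.BG

variable {Ω U O₀ K : Set ℂ} {𝒦 : Set (Set ℂ)}

private theorem seg_cr_apply (w v : ℂ) : cr w v = w.re * v.im - w.im * v.re := by
  unfold cr
  simp [Complex.mul_im, Complex.conj_re, Complex.conj_im]
  ring

private theorem seg_notMem (hT : Table Ω) {P : ℂ} (hP : P ∈ frontier Ω) : P ∉ Ω := by
  rw [hT.isOpen.frontier_eq] at hP
  exact hP.2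

private theorem seg_cl {P : ℂ} (hP : P ∈ frontier Ω) : P ∈ closure Ω :=
  frontier_subset_closure hP

private theorem seg_open (hT : Table Ω) {P B : ℂ} (hP : P ∈ closure Ω) (hB : B ∈ closure Ω)
    (h : P ≠ B) : openSegment ℝ P B ⊆ Ω := by
  have h1 := hT.strict.openSegment_subset hP hB h
  have h2 : interior (closure Ω) = Ω := by
    rw [hT.convex.interior_closure_eq_interior_of_nonempty_interior
      (by rw [hT.isOpen.interior_eq]; exact hT.nonempty), hT.isOpen.interior_eq]
  rwa [h2] at h1

/-- parallel vectors -/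
private theorem seg_par {w v : ℂ} (hw : w ≠ 0) (h : cr w v = 0) : ∃ c : ℝ, v = c * w := by
  refine ⟨(conj w * v).re / Complex.normSq w, ?_⟩
  have h1 : conj w * v = ((conj w * v).re : ℂ) := by
    apply Complex.ext
    · simp
    · rw [Complex.ofReal_im]; exact h
  have hn : (Complex.normSq w : ℂ) ≠ 0 := by
    rw [Complex.ofReal_ne_zero]
    exact fun h' => hw (Complex.normSq_eq_zero.mp h')
  have h2 : w * conj w = (Complex.normSq w : ℂ) := Complex.mul_conj w
  push_cast
  rw [div_mul_eq_mul_div, eq_div_iff hn, ← h1, ← h2]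
  ring

/- T1 (Seg) -/
theorem segFacts (hT : Table Ω) : SegFacts Ω where
  seg P hP B hB h := seg_open hT (seg_cl hP) (seg_cl hB) h
  col P hP B hB B' hB' h1 h2 h3 := by
    intro h0
    have hw : B - P ≠ 0 := sub_ne_zero.mpr (Ne.symm h1)
    obtain ⟨c, hc⟩ := seg_par hw h0
    have hc' : B' = P + c * (B - P) := by rw [← hc]; ring
    rcases lt_trichotomy c 0 with hc0 | hc0 | hc0
    · apply seg_notMem hT hP
      apply seg_open hT (seg_cl hB) (seg_cl hB') h3
      have hpos : 0 < 1 - c := by linarith
      refine ⟨-c / (1 - c), 1 / (1 - c), div_pos (by linarith) hpos, by positivity, ?_, ?_⟩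
      · field_simp
        ring
      · have hne : (1 - c : ℂ) ≠ 0 := by
          have : ((1 - c : ℝ) : ℂ) ≠ 0 := Complex.ofReal_ne_zero.mpr hpos.ne'
          simpa using this
        rw [hc', Complex.real_smul, Complex.real_smul]
        push_cast
        field_simp
        ring
    · rw [hc0] at hc'
      apply h2
      rw [hc']; simp
    · rcases lt_trichotomy c 1 with hc1 | hc1 | hc1
      · apply seg_notMem hT hB'
        apply seg_open hT (seg_cl hP) (seg_cl hB) h1
        refine ⟨1 - c, c, by linarith, hc0, by ring, ?_⟩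
        rw [hc', Complex.real_smul, Complex.real_smul]
        push_cast
        ring
      · rw [hc1] at hc'
        apply h3
        rw [hc']; simp
      · apply seg_notMem hT hB
        apply seg_open hT (seg_cl hP) (seg_cl hB') h2
        have hinv : 1 / c < 1 := by rw [div_lt_one hc0]; exact hc1
        refine ⟨1 - 1 / c, 1 / c, by linarith, by positivity, by ring, ?_⟩
        have hne : (c : ℂ) ≠ 0 := Complex.ofReal_ne_zero.mpr hc0.ne'
        rw [hc', Complex.real_smul, Complex.real_smul]
        push_cast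
        field_simp
        ring
  ray P hP y hy := by
    have hyP : y - P ≠ 0 := by
      rw [sub_ne_zero]
      rintro rfl
      exact seg_notMem hT hP hy
    have hcont : Continuous (fun t : ℝ => P + (t : ℂ) * (y - P)) := by fun_prop
    have hconn : IsPreconnected ((fun t : ℝ => P + (t : ℂ) * (y - P)) '' Set.Ici 1) :=
      isPreconnected_Ici.image _ hcont.continuousOn
    obtain ⟨R, hR⟩ := hT.bounded.exists_norm_le
    have hn : 0 < ‖y - P‖ := norm_pos_iff.mpr hyP
    set t1 : ℝ := max 1 ((R + ‖P‖ + 1) / ‖y - P‖) with ht1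
    have h1 : (((fun t : ℝ => P + (t : ℂ) * (y - P)) '' Set.Ici 1) ∩ Ω).Nonempty :=
      ⟨y, ⟨1, Set.mem_Ici.mpr le_rfl, by simp⟩, hy⟩
    have h2 : (((fun t : ℝ => P + (t : ℂ) * (y - P)) '' Set.Ici 1) ∩ Ωᶜ).Nonempty := by
      refine ⟨P + (t1 : ℂ) * (y - P), ⟨t1, Set.mem_Ici.mpr (le_max_left _ _), rfl⟩, ?_⟩
      intro hmem
      have h3 := hR _ hmem
      have h4 : ‖(t1 : ℂ) * (y - P)‖ ≤ R + ‖P‖ := by
        have := norm_sub_le (P + (t1 : ℂ) * (y - P)) P
        rw [add_sub_cancel_left] at this
        linarith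
      rw [norm_mul, Complex.norm_real, Real.norm_of_nonneg
        (le_trans zero_le_one (le_max_left _ _))] at h4
      have h5 : (R + ‖P‖ + 1) / ‖y - P‖ ≤ t1 := le_max_right _ _
      rw [div_le_iff₀ hn] at h5
      linarith
    obtain ⟨z, ⟨t, ht, rfl⟩, hz⟩ := isPreconnected_closed_iff.mp hconn (closure Ω) Ωᶜ
      isClosed_closure hT.isOpen.isClosed_compl
      (fun x _ => (em (x ∈ Ω)).imp (fun h => subset_closure h) id)
      (h1.mono (Set.inter_subset_inter_right _ subset_closure)) h2
    have hz : P + (t : ℂ) * (y - P) ∈ frontier Ω := by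
      rw [hT.isOpen.frontier_eq]; exact hz
    refine ⟨t, ?_, hz⟩
    rcases (Set.mem_Ici.mp ht).eq_or_lt with h | h
    · exfalso
      rw [← h] at hz
      apply seg_notMem hT hz
      simpa using hy
    · exact h
  tan P hP := by
    obtain ⟨f, hf⟩ := geometric_hahn_banach_point_open hT.convex hT.isOpen (seg_notMem hT hP)
    have hfv : ∀ v : ℂ, f v = v.re * f 1 + v.im * f Complex.I := by
      intro v
      conv_lhs => rw [← Complex.re_add_im v]
      rw [map_add]
      congr 1
      · have : (v.re : ℂ) = v.re • (1 : ℂ) := by simp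
        rw [this, map_smul, smul_eq_mul]
      · have : (v.im : ℂ) * Complex.I = v.im • Complex.I := by simp
        rw [this, map_smul, smul_eq_mul]
    set u0 : ℂ := ⟨f Complex.I, -f 1⟩ with hu0
    have hcr : ∀ v, cr u0 v = f v := by
      intro v
      rw [seg_cr_apply, hfv]
      simp only [hu0]
      ring
    have hpos : ∀ y ∈ Ω, 0 < cr u0 (y - P) := by
      intro y hy
      rw [hcr, map_sub]
      linarith [hf y hy]
    have hu0ne : u0 ≠ 0 := by
      intro h
      obtain ⟨y, hy⟩ := hT.nonempty
      have := hpos y hy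
      rw [h] at this
      simp [cr] at this
    have hn : 0 < ‖u0‖ := norm_pos_iff.mpr hu0ne
    -- normalisation
    set u : ℂ := ((‖u0‖⁻¹ : ℝ) : ℂ) * u0 with hu
    have hun : ‖u‖ = 1 := by
      rw [hu, norm_mul, Complex.norm_real, Real.norm_of_nonneg (by positivity),
        inv_mul_cancel₀ hn.ne']
    have hcru : ∀ v, cr u v = ‖u0‖⁻¹ * cr u0 v := by
      intro v
      rw [seg_cr_apply, seg_cr_apply, hu, Complex.re_ofReal_mul, Complex.im_ofReal_mul]
      ring
    have hposu : ∀ y ∈ Ω, 0 < cr u (y - P) := by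
      intro y hy
      rw [hcru]
      exact mul_pos (by positivity) (hpos y hy)
    have hune : u ≠ 0 := by
      intro h
      rw [h, norm_zero] at hun
      exact zero_ne_one hun
    refine ⟨u, hun, ?_, ?_⟩
    · intro y hy hyP
      have hm : (1 / 2 : ℝ) • P + (1 / 2 : ℝ) • y ∈ Ω :=
        seg_open hT (seg_cl hP) hy (Ne.symm hyP)
          ⟨1 / 2, 1 / 2, by norm_num, by norm_num, by norm_num, rfl⟩
      have h1 := hposu _ hm
      have e : (1 / 2 : ℝ) • P + (1 / 2 : ℝ) • y - P = ((1 / 2 : ℝ) : ℂ) * (y - P) := by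
        rw [Complex.real_smul, Complex.real_smul]
        push_cast
        ring
      have e2 : cr u (((1 / 2 : ℝ) : ℂ) * (y - P)) = 1 / 2 * cr u (y - P) := by
        rw [seg_cr_apply, seg_cr_apply, Complex.re_ofReal_mul (1 / 2 : ℝ) (y - P),
          Complex.im_ofReal_mul (1 / 2 : ℝ) (y - P)]
        ring
      rw [e, e2] at h1
      linarith
    · intro v hv
      have h1 := hT.smooth P hP u v ⟨hune, fun y hy => (hposu y hy).ne'⟩ hv
      exact seg_par hune h1

end Pool.Agent.H719R3.BG
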