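import Pool.Agent.H719R3.BG.Defs

open scoped ComplexConjugate
open Real

namespace Pool.Agent.H719R3.BG

variable {Ω U O₀ K : Set ℂ} {𝒦 : Set (Set ℂ)}

/- T1 (Seg) -/
theorem segFacts (hT : Table Ω) : SegFacts Ω := by sorry

/- T2 (Rt) -/
theorem rtFacts (hT : Table Ω) (hS : SegFacts Ω) (hK : IsCompact K) (hKc : Convex ℝ K)
    (hKi : (interior K).Nonempty) (hKΩ : K ⊆ Ω) : RTFacts Ω K := by sorry

/- T3 (Law) -/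
theorem law_of_caustic (hT : Table Ω) (hS : SegFacts Ω) (hK : IsCaustic Ω K) {A P B u : ℂ}
    (h1 : RT Ω K A P) (h2 : RT Ω K P B) (hu : Tangent Ω P u) :
    ((P - A) * (B - P) * conj u ^ 2).im = 0 := by sorry

/- T4 (Ex) -/
theorem exists_caustic (hT : Table Ω) (hS : SegFacts Ω) (hC : CausticCollar Ω 𝒦 U) {K₀ : Set ℂ}
    (hK₀ : K₀ ∈ 𝒦) {P B : ℂ} (hP : P ∈ frontier Ω) (hB : B ∈ frontier Ω) (hne : P ≠ B)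
    (hU : segment ℝ P B ⊆ U) (hd : Disjoint (segment ℝ P B) K₀)
    (hl : ∃ y ∈ K₀, 0 < cr (B - P) (y - P)) : ∃ K ∈ 𝒦, K₀ ⊆ K ∧ RT Ω K P B := by sorry

/- T5 (Gam) -/
theorem exists_param (hT : Table Ω) {O : ℂ} (hO : O ∈ Ω) : ∃ Γ : ℝ → ℂ, Param Ω O Γ := by sorry

/- T6a (Tau) -/
theorem exists_tau (hT : Table Ω) (hS : SegFacts Ω) {O : ℂ} {Γ : ℝ → ℂ} (hΓ : Param Ω O Γ) :
    ∃ τ : ℝ → ℂ, Tau Ω Γ τ := by sorry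

/- T6b (Mcont) -/
theorem MM_cont {O : ℂ} {Γ τ : ℝ → ℂ} (hO : O ∈ Ω) (hΓ : Param Ω O Γ) (hτ : Tau Ω Γ τ) :
    ContinuousOn (fun p : ℝ × ℝ => MM Γ τ p.1 p.2) {p | p.1 ≤ p.2 ∧ p.2 ≤ p.1 + π} := by sorry

/- T6c (Minj) -/
theorem MM_inj (hS : SegFacts Ω) {O : ℂ} {Γ τ : ℝ → ℂ} (hO : O ∈ Ω) (hΓ : Param Ω O Γ)
    (hτ : Tau Ω Γ τ) {x y z : ℝ} (h1 : x ≤ y) (h2 : y ≤ x + π) (h3 : x ≤ z) (h4 : z ≤ x + π)
    (h : MM Γ τ x y = MM Γ τ x z) : y = z := by sorry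

/- T6d (Next): closed relation + uniqueness + compactness give continuity -/
theorem next_cont {M : ℝ → ℝ → ℂ} {m : ℝ → ℂ}
    (hM : ContinuousOn (fun p : ℝ × ℝ => M p.1 p.2) {p | p.1 ≤ p.2 ∧ p.2 ≤ p.1 + π})
    (hm : Continuous m) (h0 : ∀ x y, x ≤ y → y ≤ x + π → M x y ≠ 0)
    (hinj : ∀ x y z, x ≤ y → y ≤ x + π → x ≤ z → z ≤ x + π → M x y = M x z → y = z)
    {S : Set ℝ} {x y z : ℝ → ℝ} (hx : ContinuousOn x S) (hy : ContinuousOn y S)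
    (h1 : ∀ s ∈ S, x s ≤ y s ∧ y s ≤ x s + π) (h2 : ∀ s ∈ S, y s ≤ z s ∧ z s ≤ y s + π)
    (h3 : ∀ s ∈ S, M (x s) (y s) * M (y s) (z s) = m (y s)) : ContinuousOn z S := by sorry

/- T7 (Turn): geometry of one step -/
theorem turn (hT : Table Ω) (hS : SegFacts Ω) {O : ℂ} {Γ : ℝ → ℂ} (hΓ : Param Ω O Γ)
    (hK : IsCompact K) (hKc : Convex ℝ K) (hKΩ : K ⊆ Ω) (hO : O ∈ interior K)
    (hR : RTFacts Ω K) :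
    (∀ x, ∃! y, x < y ∧ y < x + π ∧ RT Ω K (Γ x) (Γ y)) ∧
    (∀ x y, RT Ω K (Γ x) (Γ y) → x ≤ y → y < x + 2 * π → y < x + π) ∧
    ∃ η : ℝ, 0 < η ∧ ∀ x y, x < y → y < x + π → RT Ω K (Γ x) (Γ y) → x + η ≤ y := by sorry

end Pool.Agent.H719R3.BG
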